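import Pool.Agent.H5.RS.Par

/-!
# OS0: the API of desubstitutions with cuts
-/

set_option autoImplicit false

namespace H35.RS.OS

open H35.RS H35.RS.Up

variable {A : Type*}

theorem hasLen_of_compatible {ϑ : A → Finset (List A)} (hϑ : IsRandomSub ϑ)
    (hc : Compatible ϑ) : ∃ ℓ : A → ℕ, HasLen ϑ ℓ := by
  choose w hw using fun a => (hϑ a).1
  exact ⟨fun a => (w a).length, fun a v hv => (hc a v hv (w a) (hw a)).length_eq⟩

theorem HasLen.pos {ϑ : A → Finset (List A)} {ℓ : A → ℕ} (hℓ : HasLen ϑ ℓ)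
    (hϑ : IsRandomSub ϑ) (a : A) : 1 ≤ ℓ a := by
  obtain ⟨v, hv⟩ := (hϑ a).1
  rw [← hℓ a v hv]
  exact List.length_pos_iff.2 ((hϑ a).2 v hv)

theorem Parse.step {ϑ : A → Finset (List A)} {ℓ : A → ℕ} (hℓ : HasLen ϑ ℓ)
    {x y : ℤ → A} {c : ℤ → ℤ} (h : Parse ϑ x y c) (i : ℤ) : c (i + 1) = c i + ℓ (y i) := by
  obtain ⟨h1, h2⟩ := h.2 i
  have h3 := hℓ _ _ h2
  rw [wd_length] at h3
  omega

theorem Parse.tile {ϑ : A → Finset (List A)} {ℓ : A → ℕ} (hℓ : HasLen ϑ ℓ)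
    {x y : ℤ → A} {c : ℤ → ℤ} (h : Parse ϑ x y c) (i : ℤ) :
    wd x (c i) (ℓ (y i)) ∈ ϑ (y i) := by
  obtain ⟨h1, h2⟩ := h.2 i
  have h3 := hℓ _ _ h2
  rw [wd_length] at h3
  rw [h3] at h2
  exact h2

/-- constructor -/
theorem Parse.mk' {ϑ : A → Finset (List A)} {ℓ : A → ℕ} (hℓ : HasLen ϑ ℓ)
    (hϑ : IsRandomSub ϑ) {x y : ℤ → A} {c : ℤ → ℤ} (hy : y ∈ subshift ϑ)
    (hc : ∀ i, c (i + 1) = c i + ℓ (y i)) (ht : ∀ i, wd x (c i) (ℓ (y i)) ∈ ϑ (y i)) :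
    Parse ϑ x y c := by
  refine ⟨hy, fun i => ?_⟩
  have h1 := hc i
  have h2 := hℓ.pos hϑ (y i)
  refine ⟨by omega, ?_⟩
  have h3 : (c (i + 1) - c i).toNat = ℓ (y i) := by omega
  rw [h3]
  exact ht i

theorem Parse.strictMono {ϑ : A → Finset (List A)} {x y : ℤ → A} {c : ℤ → ℤ}
    (h : Parse ϑ x y c) : StrictMono c := strictMono_int_of_lt_succ fun i => (h.2 i).1

/-- cuts grow at least linearly -/
theorem Parse.add_le {ϑ : A → Finset (List A)} {x y : ℤ → A} {c : ℤ → ℤ}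
    (h : Parse ϑ x y c) (i : ℤ) (n : ℕ) : c i + n ≤ c (i + n) := by
  induction n with
  | zero => simp
  | succ n ih =>
    have h1 := (h.2 (i + n)).1
    push_cast
    rw [← add_assoc i]
    omega

/-- cuts grow at most linearly -/
theorem Parse.le_add {ϑ : A → Finset (List A)} {ℓ : A → ℕ} (hℓ : HasLen ϑ ℓ) {L : ℕ}
    (hL : ∀ a, ℓ a ≤ L) {x y : ℤ → A} {c : ℤ → ℤ}
    (h : Parse ϑ x y c) (i : ℤ) (n : ℕ) : c (i + n) ≤ c i + n * L := by
  induction n with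
  | zero => simp
  | succ n ih =>
    have h1 := h.step hℓ (i + n)
    have h2 := hL (y (i + n))
    push_cast
    rw [← add_assoc i, h1]
    have h3 : (ℓ (y (i + n)) : ℤ) ≤ L := by exact_mod_cast h2
    linarith

/-- every position lies in exactly one tile -/
theorem Parse.exists_index {ϑ : A → Finset (List A)} {x y : ℤ → A} {c : ℤ → ℤ}
    (h : Parse ϑ x y c) (p : ℤ) : ∃ i, c i ≤ p ∧ p < c (i + 1) := by
  have hmono := h.strictMono
  obtain ⟨m, hm1, hm2⟩ := Int.exists_greatest_of_bdd (P := fun m => c m ≤ p)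
    ⟨(p - c 0).natAbs, fun z hz => by
      by_contra hcon
      push Not at hcon
      have h1 := h.add_le 0 (p - c 0).natAbs
      have h2 := hmono hcon
      rw [zero_add] at h1
      omega⟩
    ⟨-((c 0 - p).natAbs : ℤ), by
      have h1 := h.add_le (-((c 0 - p).natAbs : ℤ)) (c 0 - p).natAbs
      rw [neg_add_cancel] at h1
      show c (-((c 0 - p).natAbs : ℤ)) ≤ p
      omega⟩
  refine ⟨m, hm1, ?_⟩
  by_contra hcon
  push Not at hcon
  have := hm2 (m + 1) hcon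
  omega

/-- renumbering -/
theorem Parse.reindex {ϑ : A → Finset (List A)} {x y : ℤ → A} {c : ℤ → ℤ}
    (h : Parse ϑ x y c) (k : ℤ) : Parse ϑ x (sh k y) (fun i => c (i + k)) := by
  refine ⟨Cst.sh_mem h.1 k, fun i => ?_⟩
  have h1 := h.2 (i + k)
  have e : i + 1 + k = i + k + 1 := by ring
  simp only [e, sh_apply]
  exact h1

/-- shifting `x` -/
theorem Parse.shift {ϑ : A → Finset (List A)} {x y : ℤ → A} {c : ℤ → ℤ}
    (h : Parse ϑ x y c) (k : ℤ) : Parse ϑ (sh k x) y (fun i => c i - k) := by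
  refine ⟨h.1, fun i => ?_⟩
  have h1 := h.2 i
  refine ⟨by simp only []; omega, ?_⟩
  rw [wd_sh]
  have e1 : c (i + 1) - k - (c i - k) = c (i + 1) - c i := by ring
  have e2 : c i - k + k = c i := by ring
  simp only [e1, e2]
  exact h1.2

theorem Parse.mem {ϑ : A → Finset (List A)} (hϑ : IsRandomSub ϑ) {x y : ℤ → A} {c : ℤ → ℤ}
    (h : Parse ϑ x y c) : x ∈ subshift ϑ := by
  refine mem_subshift_of_tiles hϑ h.1 (fun i => wd x (c i) (c (i + 1) - c i).toNat) c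
    (fun i => (h.2 i).2) ?_ ?_
  · intro i
    have := (h.2 i).1
    simp only [wd_length]
    omega
  · intro i
    simp only [wd_length]

theorem exists_parse [Finite A] {ϑ : A → Finset (List A)} (hϑ : IsRandomSub ϑ) {ℓ : A → ℕ}
    (hℓ : HasLen ϑ ℓ) {x : ℤ → A} (hx : x ∈ subshift ϑ) :
    ∃ y c, Parse ϑ x y c ∧ c 0 ≤ 0 ∧ 0 < c 1 := by
  obtain ⟨y, hy, c, hc, ht, h0, h1⟩ := exists_tiles hϑ ℓ hℓ hx
  exact ⟨y, c, Parse.mk' hℓ hϑ hy hc ht, h0, h1⟩

/-- a sequence in which every tile is still an inflation word of the right letter -/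
theorem Parse.congr {ϑ : A → Finset (List A)} {ℓ : A → ℕ} (hℓ : HasLen ϑ ℓ)
    {x x' y : ℤ → A} {c : ℤ → ℤ} (h : Parse ϑ x y c)
    (h' : ∀ i, wd x' (c i) (ℓ (y i)) ∈ ϑ (y i)) : Parse ϑ x' y c := by
  refine ⟨h.1, fun i => ?_⟩
  have h1 := h.step hℓ i
  refine ⟨(h.2 i).1, ?_⟩
  have h3 : (c (i + 1) - c i).toNat = ℓ (y i) := by omega
  rw [h3]
  exact h' i

/-- exchange of one tile -/
theorem Parse.change {ϑ : A → Finset (List A)} {ℓ : A → ℕ} (hℓ : HasLen ϑ ℓ)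
    {x x' y : ℤ → A} {c : ℤ → ℤ} (h : Parse ϑ x y c) (i : ℤ)
    (h1 : wd x' (c i) (ℓ (y i)) ∈ ϑ (y i))
    (h2 : ∀ j : ℤ, (j < c i ∨ c (i + 1) ≤ j) → x' j = x j) : Parse ϑ x' y c := by
  refine h.congr hℓ fun m => ?_
  rcases eq_or_ne m i with rfl | hne
  · exact h1
  · have hm := h.strictMono
    have hs := h.step hℓ m
    have e : wd x' (c m) (ℓ (y m)) = wd x (c m) (ℓ (y m)) := by
      apply Cst.wd_congr'
      intro k hk1 hk2
      apply h2
      rcases lt_or_gt_of_ne hne with hlt | hgt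
      · left
        have h3 : c (m + 1) ≤ c i := hm.monotone (by omega)
        omega
      · right
        have h3 : c (i + 1) ≤ c m := hm.monotone (by omega)
        omega
    rw [e]
    exact h.tile hℓ m

/-- blocks of consecutive tiles -/
theorem Parse.block {ϑ : A → Finset (List A)} {x y : ℤ → A} {c : ℤ → ℤ}
    (h : Parse ϑ x y c) (i : ℤ) (n : ℕ) :
    wd x (c i) (c (i + n) - c i).toNat ∈ imgW ϑ (wd y i n) := by
  induction n with
  | zero =>
    simp only [Nat.cast_zero, add_zero, sub_self, Int.toNat_zero]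
    rw [wd_zero, wd_zero]
    rfl
  | succ n ih =>
    have h1 := h.2 (i + n)
    have h2 := h.add_le i n
    have e1 : (c (i + ((n + 1 : ℕ) : ℤ)) - c i).toNat =
        (c (i + n) - c i).toNat + (c (i + n + 1) - c (i + n)).toNat := by
      have e : i + ((n + 1 : ℕ) : ℤ) = i + n + 1 := by push_cast; ring
      rw [e]
      omega
    rw [e1, wd_add x (c i), wd_add y i n 1, wd_one]
    have e2 : c i + (((c (i + n) - c i).toNat : ℕ) : ℤ) = c (i + n) := by omega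
    rw [e2]
    exact (imgW_append _ _ _).2 ⟨_, ih, _, mem_imgW_singleton h1.2, rfl⟩

/-- composition of desubstitutions -/
theorem Parse.comp {ϑ : A → Finset (List A)} (hϑ : IsRandomSub ϑ) (hp : Primitive ϑ)
    {x y z : ℤ → A} {c d : ℤ → ℤ} {n : ℕ} (hn : 1 ≤ n) (h : Parse ϑ x y c)
    (h' : Parse (powF ϑ n) y z d) : Parse (powF ϑ (n + 1)) x z (fun i => c (d i)) := by
  refine ⟨?_, fun i => ?_⟩
  · rw [subshift_powF hϑ hp (by omega)]
    have := h'.1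
    rwa [subshift_powF hϑ hp hn] at this
  · obtain ⟨h1, h2⟩ := h'.2 i
    refine ⟨h.strictMono h1, ?_⟩
    rw [mem_powF, mem_pow_succ]
    refine ⟨_, mem_powF.1 h2, ?_⟩
    have h3 := h.block (d i) (d (i + 1) - d i).toNat
    have e : d i + (((d (i + 1) - d i).toNat : ℕ) : ℤ) = d (i + 1) := by omega
    rw [e] at h3
    exact h3

/-! ### Compactness -/

/-- the cuts determined by the letters and the cut number zero -/
noncomputable def cutsOf (ℓ : A → ℕ) (y : ℤ → A) (c₀ : ℤ) (m : ℤ) : ℤ :=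
  c₀ + ∑ j ∈ Finset.Ico 0 m, (ℓ (y j) : ℤ) - ∑ j ∈ Finset.Ico m 0, (ℓ (y j) : ℤ)

theorem cutsOf_zero (ℓ : A → ℕ) (y : ℤ → A) (c₀ : ℤ) : cutsOf ℓ y c₀ 0 = c₀ := by
  simp [cutsOf]

theorem cutsOf_succ (ℓ : A → ℕ) (y : ℤ → A) (c₀ : ℤ) (m : ℤ) :
    cutsOf ℓ y c₀ (m + 1) = cutsOf ℓ y c₀ m + ℓ (y m) := by
  unfold cutsOf
  rcases le_or_gt 0 m with h | h
  · have h1 : Finset.Ico (m + 1) 0 = ∅ := Finset.Ico_eq_empty (by omega)
    have h2 : Finset.Ico m 0 = ∅ := Finset.Ico_eq_empty (by omega)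
    have h3 : Finset.Ico 0 (m + 1) = insert m (Finset.Ico 0 m) := by
      ext j; simp only [Finset.mem_Ico, Finset.mem_insert]; omega
    simp only [h1, h2, Finset.sum_empty, sub_zero]
    rw [h3, Finset.sum_insert (by simp)]
    ring
  · have h1 : Finset.Ico 0 (m + 1) = ∅ := Finset.Ico_eq_empty (by omega)
    have h2 : Finset.Ico 0 m = ∅ := Finset.Ico_eq_empty (by omega)
    have h3 : Finset.Ico m 0 = insert m (Finset.Ico (m + 1) 0) := by
      ext j; simp only [Finset.mem_Ico, Finset.mem_insert]; omega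
    simp only [h1, h2, Finset.sum_empty, add_zero]
    rw [h3, Finset.sum_insert (by simp)]
    ring

/-- two sequences with the same increments and the same value at zero are equal -/
theorem eq_of_step {f g : ℤ → ℤ} (h0 : f 0 = g 0)
    (h : ∀ i, f (i + 1) - f i = g (i + 1) - g i) : f = g := by
  funext i
  induction i using Int.induction_on with
  | zero => exact h0
  | succ i ih => have := h i; linarith
  | pred i ih =>
    have := h (-(i : ℤ) - 1)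
    rw [sub_add_cancel] at this
    linarith

theorem Parse.eq_cutsOf {ϑ : A → Finset (List A)} {ℓ : A → ℕ} (hℓ : HasLen ϑ ℓ)
    {x y : ℤ → A} {c : ℤ → ℤ} (h : Parse ϑ x y c) : c = cutsOf ℓ y (c 0) := by
  apply eq_of_step
  · rw [cutsOf_zero]
  · intro i
    rw [cutsOf_succ, h.step hℓ]
    ring

theorem cutsOf_congr {ℓ : A → ℕ} {y y' : ℤ → A} {c₀ : ℤ} {r : ℤ} (_hr : 0 ≤ r)
    (h : ∀ i : ℤ, |i| ≤ r → y i = y' i) {m : ℤ} (hm : |m| ≤ r) :
    cutsOf ℓ y c₀ m = cutsOf ℓ y' c₀ m := by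
  rw [abs_le] at hm
  unfold cutsOf
  have e1 : ∑ j ∈ Finset.Ico 0 m, (ℓ (y j) : ℤ) = ∑ j ∈ Finset.Ico 0 m, (ℓ (y' j) : ℤ) := by
    apply Finset.sum_congr rfl
    intro j hj
    rw [Finset.mem_Ico] at hj
    rw [h j (by rw [abs_le]; constructor <;> omega)]
  have e2 : ∑ j ∈ Finset.Ico m 0, (ℓ (y j) : ℤ) = ∑ j ∈ Finset.Ico m 0, (ℓ (y' j) : ℤ) := by
    apply Finset.sum_congr rfl
    intro j hj
    rw [Finset.mem_Ico] at hj
    rw [h j (by rw [abs_le]; constructor <;> omega)]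
  rw [e1, e2]

theorem cutsOf_bound {ℓ : A → ℕ} {L : ℕ} (hL : ∀ a, ℓ a ≤ L) (y : ℤ → A) (c₀ m : ℤ) :
    |cutsOf ℓ y c₀ m| ≤ |c₀| + |m| * L := by
  have hL' : ∀ a, (ℓ a : ℤ) ≤ L := fun a => by exact_mod_cast hL a
  induction m using Int.induction_on with
  | zero => rw [cutsOf_zero]; simp
  | succ i ih =>
    rw [cutsOf_succ]
    have h1 := hL' (y i)
    have h2 : (0 : ℤ) ≤ ℓ (y i) := by positivity
    have h3 : |((i : ℤ) + 1)| = (i : ℤ) + 1 := abs_of_nonneg (by positivity)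
    have h4 : |(i : ℤ)| = (i : ℤ) := abs_of_nonneg (by positivity)
    rw [h3]
    rw [h4] at ih
    rw [abs_le] at ih ⊢
    constructor <;> nlinarith
  | pred i ih =>
    have h0 := cutsOf_succ ℓ y c₀ (-(i : ℤ) - 1)
    rw [sub_add_cancel] at h0
    have h1 := hL' (y (-(i : ℤ) - 1))
    have h2 : (0 : ℤ) ≤ ℓ (y (-(i : ℤ) - 1)) := by positivity
    have h3 : |(-(i : ℤ) - 1)| = (i : ℤ) + 1 := by
      rw [show (-(i : ℤ) - 1) = -((i : ℤ) + 1) by ring, abs_neg]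
      exact abs_of_nonneg (by positivity)
    have h4 : |(-(i : ℤ))| = (i : ℤ) := by
      rw [abs_neg]
      exact abs_of_nonneg (by positivity)
    rw [h3]
    rw [h4] at ih
    rw [abs_le] at ih ⊢
    constructor <;> nlinarith

/-- the local conditions for a desubstitution -/
def LocParse (ϑ : A → Finset (List A)) (ℓ : A → ℕ) (N : ℕ) (x y : ℤ → A) (c₀ : ℤ) : Prop :=
  Legal ϑ (wd y (-(N : ℤ)) (2 * N)) ∧
    ∀ i : ℤ, |i| ≤ (N : ℤ) → wd x (cutsOf ℓ y c₀ i) (ℓ (y i)) ∈ ϑ (y i)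

theorem LocParse.mono {ϑ : A → Finset (List A)} {ℓ : A → ℕ} {N : ℕ} {x y : ℤ → A} {c₀ : ℤ}
    (h : LocParse ϑ ℓ (N + 1) x y c₀) : LocParse ϑ ℓ N x y c₀ :=
  ⟨Cst.legal_mono h.1, fun i hi => h.2 i (by push_cast; linarith)⟩

theorem LocParse.congr {ϑ : A → Finset (List A)} {ℓ : A → ℕ} {L : ℕ} (hL : ∀ a, ℓ a ≤ L) {N : ℕ}
    {x y x' y' : ℤ → A} {c₀ : ℤ} {K : ℕ} (hc : |c₀| ≤ K)
    (hxy : ∀ i : ℤ, |i| ≤ ((K + (N + 1) * L + N : ℕ) : ℤ) → x i = x' i ∧ y i = y' i)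
    (h : LocParse ϑ ℓ N x y c₀) : LocParse ϑ ℓ N x' y' c₀ := by
  have hr : ((K + (N + 1) * L + N : ℕ) : ℤ) = (K : ℤ) + ((N : ℤ) + 1) * L + N := by
    push_cast; ring
  rw [hr] at hxy
  have hNL : (0 : ℤ) ≤ ((N : ℤ) + 1) * L := by positivity
  have hK0 : (0 : ℤ) ≤ K := by positivity
  have hN0 : (0 : ℤ) ≤ N := by positivity
  refine ⟨?_, ?_⟩
  · have e : wd y' (-(N : ℤ)) (2 * N) = wd y (-(N : ℤ)) (2 * N) := by
      apply Cst.wd_congr'
      intro k hk1 hk2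
      refine ((hxy _ ?_).2).symm
      push_cast at hk2
      rw [abs_le]
      constructor <;> linarith
    rw [e]
    exact h.1
  · intro i hi
    have e1 : y' i = y i := ((hxy i (by linarith)).2).symm
    have e2 : cutsOf ℓ y' c₀ i = cutsOf ℓ y c₀ i := by
      refine cutsOf_congr (r := N) hN0 ?_ hi
      intro j hj
      exact ((hxy j (by linarith)).2).symm
    have hb := cutsOf_bound hL y c₀ i
    have hLi : (ℓ (y i) : ℤ) ≤ L := by exact_mod_cast hL (y i)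
    have hiL : |i| * (L : ℤ) ≤ N * L := mul_le_mul_of_nonneg_right hi (by positivity)
    have e3 : wd x' (cutsOf ℓ y c₀ i) (ℓ (y i)) = wd x (cutsOf ℓ y c₀ i) (ℓ (y i)) := by
      apply Cst.wd_congr'
      intro k hk1 hk2
      refine ((hxy _ ?_).1).symm
      rw [abs_le] at hb ⊢
      constructor <;> nlinarith
    rw [e1, e2, e3]
    exact h.2 i hi

theorem parse_of_loc {ϑ : A → Finset (List A)} (hϑ : IsRandomSub ϑ) {ℓ : A → ℕ}
    (hℓ : HasLen ϑ ℓ) {x y : ℤ → A} {c₀ : ℤ} (h : ∀ N, LocParse ϑ ℓ N x y c₀) :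
    Parse ϑ x y (cutsOf ℓ y c₀) := by
  refine Parse.mk' hℓ hϑ (Cst.mem_of_legal fun n => (h n).1) (cutsOf_succ ℓ y c₀) ?_
  intro i
  exact (h i.natAbs).2 i (le_of_eq (Int.abs_eq_natAbs i))

theorem Parse.loc {ϑ : A → Finset (List A)} {ℓ : A → ℕ} (hℓ : HasLen ϑ ℓ)
    {x y : ℤ → A} {c : ℤ → ℤ} (h : Parse ϑ x y c) (N : ℕ) : LocParse ϑ ℓ N x y (c 0) := by
  refine ⟨h.1 _ _, fun i _ => ?_⟩
  rw [← h.eq_cutsOf hℓ]
  exact h.tile hℓ i

/-- Compactness for pairs of desubstitutions. -/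
theorem parse_compact [Finite A] {ϑ : A → Finset (List A)} (hϑ : IsRandomSub ϑ) {ℓ : A → ℕ}
    (hℓ : HasLen ϑ ℓ) (K : ℕ)
    (Q : ℕ → (ℤ → A) → (ℤ → A) → (ℤ → ℤ) → (ℤ → A) → (ℤ → A) → (ℤ → ℤ) → Prop)
    (hmono : ∀ N x y c x' y' c', Q (N + 1) x y c x' y' c' → Q N x y c x' y' c')
    (hloc : ∀ N, ∃ r : ℕ, ∀ x y c x' y' c' z w d z' w' d',
      (∀ i : ℤ, |i| ≤ (r : ℤ) → x i = z i ∧ y i = w i ∧ c i = d i ∧
        x' i = z' i ∧ y' i = w' i ∧ c' i = d' i) →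
      Q N x y c x' y' c' → Q N z w d z' w' d')
    (hex : ∀ N, ∃ x y c x' y' c', Parse ϑ x y c ∧ Parse ϑ x' y' c' ∧
      |c 0| ≤ (K : ℤ) ∧ |c' 0| ≤ (K : ℤ) ∧ Q N x y c x' y' c') :
    ∃ x y c x' y' c', Parse ϑ x y c ∧ Parse ϑ x' y' c' ∧
      |c 0| ≤ (K : ℤ) ∧ |c' 0| ≤ (K : ℤ) ∧ ∀ N, Q N x y c x' y' c' := by
  classical
  obtain ⟨L, hL⟩ : ∃ L : ℕ, ∀ a, ℓ a ≤ L := by
    obtain ⟨L, hL⟩ := (Set.finite_range ℓ).bddAbove
    exact ⟨L, fun a => hL ⟨a, rfl⟩⟩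
  let X : (ℤ → (A × A) × (A × A) × Fin (2 * K + 1) × Fin (2 * K + 1)) → ℤ → A :=
    fun s i => (s i).1.1
  let Y : (ℤ → (A × A) × (A × A) × Fin (2 * K + 1) × Fin (2 * K + 1)) → ℤ → A :=
    fun s i => (s i).1.2
  let X' : (ℤ → (A × A) × (A × A) × Fin (2 * K + 1) × Fin (2 * K + 1)) → ℤ → A :=
    fun s i => (s i).2.1.1
  let Y' : (ℤ → (A × A) × (A × A) × Fin (2 * K + 1) × Fin (2 * K + 1)) → ℤ → A :=
    fun s i => (s i).2.1.2
  let c₀ : (ℤ → (A × A) × (A × A) × Fin (2 * K + 1) × Fin (2 * K + 1)) → ℤ :=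
    fun s => ((s 0).2.2.1 : ℕ) - (K : ℤ)
  let c₀' : (ℤ → (A × A) × (A × A) × Fin (2 * K + 1) × Fin (2 * K + 1)) → ℤ :=
    fun s => ((s 0).2.2.2 : ℕ) - (K : ℤ)
  have hc₀ : ∀ s, |c₀ s| ≤ (K : ℤ) := by
    intro s
    have := (s 0).2.2.1.2
    rw [abs_le]
    constructor <;> simp only [c₀] <;> omega
  have hc₀' : ∀ s, |c₀' s| ≤ (K : ℤ) := by
    intro s
    have := (s 0).2.2.2.2
    rw [abs_le]
    constructor <;> simp only [c₀'] <;> omega
  obtain ⟨s, hs⟩ := Cst.compact_seq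
    (fun N s => LocParse ϑ ℓ N (X s) (Y s) (c₀ s) ∧ LocParse ϑ ℓ N (X' s) (Y' s) (c₀' s) ∧
      Q N (X s) (Y s) (cutsOf ℓ (Y s) (c₀ s)) (X' s) (Y' s) (cutsOf ℓ (Y' s) (c₀' s)))
    (by
      rintro N s ⟨h1, h2, h3⟩
      exact ⟨h1.mono, h2.mono, hmono _ _ _ _ _ _ _ h3⟩)
    (by
      intro N
      obtain ⟨x, y, c, x', y', c', h1, h2, h3, h4, h5⟩ := hex N
      rw [abs_le] at h3 h4
      let s : ℤ → (A × A) × (A × A) × Fin (2 * K + 1) × Fin (2 * K + 1) :=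
        fun i => ((x i, y i), (x' i, y' i), ⟨(c 0 + K).toNat, by omega⟩,
          ⟨(c' 0 + K).toNat, by omega⟩)
      have e1 : c₀ s = c 0 := by
        show (((c 0 + K).toNat : ℕ) : ℤ) - K = c 0
        omega
      have e2 : c₀' s = c' 0 := by
        show (((c' 0 + K).toNat : ℕ) : ℤ) - K = c' 0
        omega
      refine ⟨s, ?_⟩
      rw [e1, e2]
      refine ⟨h1.loc hℓ N, h2.loc hℓ N, ?_⟩
      show Q N x y (cutsOf ℓ y (c 0)) x' y' (cutsOf ℓ y' (c' 0))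
      rw [← h1.eq_cutsOf hℓ, ← h2.eq_cutsOf hℓ]
      exact h5)
    (by
      intro N
      obtain ⟨r, hr⟩ := hloc N
      refine ⟨r + (K + (N + 1) * L + N), ?_⟩
      rintro s s' hss ⟨h1, h2, h3⟩
      have hc : c₀ s = c₀ s' := by
        simp only [c₀]
        rw [hss 0 (by rw [abs_zero]; positivity)]
      have hc' : c₀' s = c₀' s' := by
        simp only [c₀']
        rw [hss 0 (by rw [abs_zero]; positivity)]
      have hk : ∀ i : ℤ, |i| ≤ ((K + (N + 1) * L + N : ℕ) : ℤ) → s i = s' i := by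
        intro i hi
        apply hss
        push_cast at hi ⊢
        have : (0 : ℤ) ≤ r := by positivity
        linarith
      have hk' : ∀ i : ℤ, |i| ≤ (r : ℤ) → s i = s' i := by
        intro i hi
        apply hss
        push_cast
        have h6 : (0 : ℤ) ≤ (K : ℤ) + ((N : ℤ) + 1) * L + N := by positivity
        linarith
      refine ⟨?_, ?_, ?_⟩
      · rw [← hc]
        refine LocParse.congr hL (hc₀ s) ?_ h1
        intro i hi
        simp only [X, Y]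
        rw [hk i hi]
        exact ⟨rfl, rfl⟩
      · rw [← hc']
        refine LocParse.congr hL (hc₀' s) ?_ h2
        intro i hi
        simp only [X', Y']
        rw [hk i hi]
        exact ⟨rfl, rfl⟩
      · refine hr _ _ _ _ _ _ _ _ _ _ _ _ ?_ h3
        intro i hi
        refine ⟨?_, ?_, ?_, ?_, ?_, ?_⟩
        · simp only [X]; rw [hk' i hi]
        · simp only [Y]; rw [hk' i hi]
        · rw [← hc]
          refine cutsOf_congr (r := r) (by positivity) ?_ hi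
          intro j hj
          simp only [Y]; rw [hk' j hj]
        · simp only [X']; rw [hk' i hi]
        · simp only [Y']; rw [hk' i hi]
        · rw [← hc']
          refine cutsOf_congr (r := r) (by positivity) ?_ hi
          intro j hj
          simp only [Y']; rw [hk' j hj])
  refine ⟨X s, Y s, cutsOf ℓ (Y s) (c₀ s), X' s, Y' s, cutsOf ℓ (Y' s) (c₀' s),
    parse_of_loc hϑ hℓ (fun N => (hs N).1), parse_of_loc hϑ hℓ (fun N => (hs N).2.1), ?_, ?_,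
    fun N => (hs N).2.2⟩
  · rw [cutsOf_zero]; exact hc₀ s
  · rw [cutsOf_zero]; exact hc₀' s

end H35.RS.OS
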