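import Mathlib

/-!
# OS1: a chain of overlapping intervals with small periods has one period
-/

set_option autoImplicit false

namespace H35.RS.OS

variable {A : Type*}

/-- moving by multiples of a period inside an interval -/
theorem move_mul {x : ℤ → A} {a b : ℤ} {q : ℕ}
    (h : ∀ i : ℤ, a ≤ i → i + q < b → x (i + q) = x i) :
    ∀ (k : ℕ) (i : ℤ), a ≤ i → i + k * q < b → x (i + k * q) = x i := by
  intro k
  induction k with
  | zero => intro i _ _; simp
  | succ k ih =>
    intro i h1 h2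
    have hq : (0 : ℤ) ≤ q := by positivity
    have hkq : (0 : ℤ) ≤ (k : ℤ) * q := by positivity
    have e : i + ((k + 1 : ℕ) : ℤ) * q = (i + k * q) + q := by push_cast; ring
    rw [e] at h2 ⊢
    rw [h _ (by linarith) h2, ih i h1 (by linarith)]

theorem chain_periodic (x : ℤ → A) (W : ℕ) (hW : 1 ≤ W)
    (h : ∀ j : ℕ, ∃ g : ℕ, 1 ≤ g ∧ 2 * g ≤ W ∧
      ∀ i : ℤ, ((j : ℤ) + 1) * W ≤ i → i + g < ((j : ℤ) + 3) * W → x (i + g) = x i) :
    ∃ g : ℕ, 1 ≤ g ∧ ∀ i : ℤ, (W : ℤ) ≤ i → x (i + g) = x i := by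
  have hW0 : (0 : ℤ) < W := by exact_mod_cast hW
  obtain ⟨g, hg1, hg2, hg⟩ := h 0
  have key : ∀ j : ℕ, ∀ i : ℤ, ((j : ℤ) + 1) * W ≤ i → i + g < ((j : ℤ) + 3) * W →
      x (i + g) = x i := by
    intro j
    induction j with
    | zero => exact hg
    | succ j ih =>
      obtain ⟨q, hq1, hq2, hq⟩ := h (j + 1)
      intro i hi1 hi2
      push_cast at hq hi1 hi2
      have hq0 : (0 : ℤ) < q := by exact_mod_cast hq1
      have hg2' : 2 * (g : ℤ) ≤ W := by exact_mod_cast hg2
      have hq2' : 2 * (q : ℤ) ≤ W := by exact_mod_cast hq2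
      -- move `i` into the overlap
      obtain ⟨o, ho⟩ : ∃ o : ℤ, o = ((j : ℤ) + 1 + 1) * W := ⟨_, rfl⟩
      have e3 : ((j : ℤ) + 1 + 3) * W = o + 2 * W := by rw [ho]; ring
      have e4 : ((j : ℤ) + 3) * W = o + W := by rw [ho]; ring
      have e5 : ((j : ℤ) + 1) * W = o - W := by rw [ho]; ring
      rw [← ho] at hq hi1
      rw [e3] at hq hi2
      rw [e4, e5] at ih
      have m1 : 0 ≤ (i - o) % (q : ℤ) := Int.emod_nonneg _ hq0.ne'
      have m2 : (i - o) % (q : ℤ) < q := Int.emod_lt_of_pos _ hq0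
      have m3 := Int.emod_add_mul_ediv (i - o) (q : ℤ)
      have m4 : 0 ≤ (i - o) / (q : ℤ) := Int.ediv_nonneg (by linarith) hq0.le
      obtain ⟨k, hk⟩ := Int.eq_ofNat_of_zero_le m4
      rw [hk] at m3
      obtain ⟨i', hi'⟩ : ∃ i' : ℤ, i' = o + (i - o) % (q : ℤ) := ⟨_, rfl⟩
      have e6 : i = i' + k * q := by rw [hi']; linarith
      have r1 : o ≤ i' := by rw [hi']; linarith
      have r2 : i' < o + q := by rw [hi']; linarith
      have mv := move_mul (x := x) (a := o) (b := o + 2 * W) (q := q) hq k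
      have s1 : x i = x i' := by
        rw [e6]
        exact mv i' r1 (by rw [← e6]; have : (0 : ℤ) ≤ g := by positivity
                           linarith)
      have s2 : x (i + g) = x (i' + g) := by
        have e7 : i + g = (i' + g) + k * q := by rw [e6]; ring
        rw [e7]
        have hg0 : (0 : ℤ) ≤ g := by positivity
        exact mv (i' + g) (by linarith) (by rw [← e7]; exact hi2)
      rw [s1, s2]
      exact ih i' (by linarith) (by linarith)
  refine ⟨g, hg1, fun i hi => ?_⟩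
  have m1 : 0 ≤ (i - W) % (W : ℤ) := Int.emod_nonneg _ hW0.ne'
  have m2 : (i - W) % (W : ℤ) < W := Int.emod_lt_of_pos _ hW0
  have m3 := Int.emod_add_mul_ediv (i - W) (W : ℤ)
  have m4 : 0 ≤ (i - W) / (W : ℤ) := Int.ediv_nonneg (by linarith) hW0.le
  obtain ⟨k, hk⟩ := Int.eq_ofNat_of_zero_le m4
  rw [hk] at m3
  have hg2' : 2 * (g : ℤ) ≤ W := by exact_mod_cast hg2
  have hg0 : (0 : ℤ) ≤ g := by positivity
  have e1 : i = (i - W) % (W : ℤ) + ((k : ℤ) + 1) * W := by linarith
  apply key k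
  · linarith
  · have e2 : ((k : ℤ) + 3) * W = ((k : ℤ) + 1) * W + 2 * W := by ring
    rw [e2]
    linarith

end H35.RS.OS
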