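import Pool.Agent.H5.RS.OS0

/-!
# OS2 : blocks of a lexicographically minimal point
-/

set_option autoImplicit false

namespace H35.RS.OS

open H35.RS H35.RS.Up

variable {A : Type*}

/-- At the first place where two blocks of the same letter differ, the first block is not the
larger one. -/
theorem lex_block_aux {ψ : A → Finset (List A)} (hψ : IsRandomSub ψ) {ℓ : A → ℕ}
    (hℓ : HasLen ψ ℓ) (e : A → ℕ) {x : ℤ → A}
    (hmin : ∀ x' ∈ subshift ψ, ∀ k : ℕ, (∀ i : ℕ, i < k → x' i = x i) → e (x k) ≤ e (x' k))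
    {y : ℤ → A} {c : ℤ → ℤ} {y' : ℤ → A} {c' : ℤ → ℤ} (h : Parse ψ x y c)
    (h' : Parse ψ x y' c') {i j : ℤ} (hi : 0 ≤ c i) (hij : y i = y' j)
    {m : ℕ} (hm : m < ℓ (y i)) (heq : ∀ n : ℕ, n < m → x (c i + n) = x (c' j + n)) :
    e (x (c i + m)) ≤ e (x (c' j + m)) := by
  have hs := h.step hℓ i
  have ht := h'.tile hℓ j
  rw [← hij] at ht
  obtain ⟨x1, hx1⟩ : ∃ x1 : ℤ → A, x1 = fun t => if c i ≤ t ∧ t < c (i + 1)
    then x (c' j + (t - c i)) else x t := ⟨_, rfl⟩
  have hw : wd x1 (c i) (ℓ (y i)) = wd x (c' j) (ℓ (y i)) := by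
    apply Cst.wd_congr'
    intro k hk1 hk2
    rw [hx1]
    have h1 : c i ≤ c i + k ∧ c i + k < c (i + 1) := by omega
    simp only [h1, and_self, if_true]
    congr 1
    omega
  have hP : Parse ψ x1 y c := by
    refine h.change hℓ i ?_ ?_
    · rw [hw]
      exact ht
    · intro t ht
      rw [hx1]
      have h1 : ¬ (c i ≤ t ∧ t < c (i + 1)) := by omega
      simp only [h1, if_false]
  have hk := hmin x1 (hP.mem hψ) (c i + m).toNat (by
    intro n hn
    rw [hx1]
    by_cases h1 : c i ≤ (n : ℤ) ∧ (n : ℤ) < c (i + 1)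
    · simp only [h1, and_self, if_true]
      have h2 := heq ((n : ℤ) - c i).toNat (by omega)
      have h3 : ((((n : ℤ) - c i).toNat : ℕ) : ℤ) = n - c i := by omega
      rw [h3] at h2
      rw [← h2]
      congr 1
      omega
    · simp only [h1, if_false])
  have h4 : (((c i + m).toNat : ℕ) : ℤ) = c i + m := by omega
  rw [h4] at hk
  have h5 : x1 (c i + m) = x (c' j + m) := by
    rw [hx1]
    have h1 : c i ≤ c i + (m : ℤ) ∧ c i + (m : ℤ) < c (i + 1) := by omega
    simp only [h1, and_self, if_true]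
    congr 1
    omega
  rw [h5] at hk
  exact hk

/-- In a point which is lexicographically minimal on `[0, ∞)` two tiles of the same letter which
start at non-negative positions are equal (exchange one for the other otherwise). -/
theorem lex_block {ψ : A → Finset (List A)} (hψ : IsRandomSub ψ) {ℓ : A → ℕ} (hℓ : HasLen ψ ℓ)
    (e : A → ℕ) (he : Function.Injective e) {x : ℤ → A}
    (hmin : ∀ x' ∈ subshift ψ, ∀ k : ℕ, (∀ i : ℕ, i < k → x' i = x i) → e (x k) ≤ e (x' k))
    {y : ℤ → A} {c : ℤ → ℤ} {y' : ℤ → A} {c' : ℤ → ℤ} (h : Parse ψ x y c)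
    (h' : Parse ψ x y' c') {i j : ℤ} (hi : 0 ≤ c i) (hj : 0 ≤ c' j) (hij : y i = y' j) :
    wd x (c i) (ℓ (y i)) = wd x (c' j) (ℓ (y i)) := by
  have key : ∀ m : ℕ, m < ℓ (y i) → x (c i + m) = x (c' j + m) := by
    intro m
    induction m using Nat.strong_induction_on with
    | _ m ih =>
      intro hm
      have h1 := lex_block_aux hψ hℓ e hmin h h' hi hij hm fun n hn => ih n hn (by omega)
      have h2 := lex_block_aux hψ hℓ e hmin h' h hj hij.symm (m := m) (by rw [← hij]; exact hm)
        fun n hn => (ih n hn (by omega)).symm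
      exact he (le_antisymm h1 h2)
  apply Cst.wd_congr'
  intro k hk1 hk2
  have := key k.toNat (by omega)
  have h3 : ((k.toNat : ℕ) : ℤ) = k := by omega
  rw [h3] at this
  exact this

end H35.RS.OS
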