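import Pool.Agent.H5.RS.OS0

/-!
# OS3: many disjoint desubstitutions give local periods
-/

set_option autoImplicit false

namespace H35.RS.OS

open H35.RS H35.RS.Up

variable {A : Type*}

/-- two desubstitutions which read the same letters and the same blocks from two cuts on -/
theorem same_run {ψ : A → Finset (List A)} {ℓ : A → ℕ}
    (hℓ : HasLen ψ ℓ) {x y y' : ℤ → A} {c c' : ℤ → ℤ} (h : Parse ψ x y c)
    (h' : Parse ψ x y' c') {a b : ℤ} {M : ℕ}
    (hl : ∀ t : ℕ, t < M → y (a + t) = y' (b + t))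
    (hb : ∀ t : ℕ, t < M →
      wd x (c (a + t)) (ℓ (y (a + t))) = wd x (c' (b + t)) (ℓ (y (a + t)))) :
    ∀ t : ℕ, t ≤ M → c (a + t) - c a = c' (b + t) - c' b ∧
      ∀ o : ℤ, 0 ≤ o → o < c (a + t) - c a → x (c a + o) = x (c' b + o) := by
  intro t
  induction t with
  | zero =>
    intro _
    refine ⟨by simp, fun o ho ho' => ?_⟩
    simp only [Nat.cast_zero, add_zero, sub_self] at ho'
    omega
  | succ t ih =>
    intro ht
    obtain ⟨h1, h2⟩ := ih (by omega)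
    have e1 : c (a + t + 1) = c (a + t) + ℓ (y (a + t)) := h.step hℓ _
    have e2 : c' (b + t + 1) = c' (b + t) + ℓ (y' (b + t)) := h'.step hℓ _
    rw [← hl t (by omega)] at e2
    have e3 : a + ((t + 1 : ℕ) : ℤ) = a + t + 1 := by push_cast; ring
    have e4 : b + ((t + 1 : ℕ) : ℤ) = b + t + 1 := by push_cast; ring
    rw [e3, e4, e1, e2]
    refine ⟨by omega, fun o ho ho' => ?_⟩
    rcases lt_or_ge o (c (a + t) - c a) with h3 | h3
    · exact h2 o ho h3
    · have h4 := Cst.wd_eq_iff (hb t (by omega)) (o - (c (a + t) - c a)) (by omega) (by omega)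
      have e5 : c (a + t) + (o - (c (a + t) - c a)) = c a + o := by ring
      have e6 : c' (b + t) + (o - (c (a + t) - c a)) = c' b + o := by
        rw [h1]
        ring
      rw [e5, e6] at h4
      exact h4

theorem run_length {ψ : A → Finset (List A)} {ℓ : A → ℕ}
    (hℓ : HasLen ψ ℓ) {x y : ℤ → A} {c : ℤ → ℤ} (h : Parse ψ x y c) {R W : ℕ}
    (hWR : ∀ a, W ≤ R * ℓ a) (a : ℤ) (t : ℕ) :
    (t : ℤ) * W ≤ R * (c (a + t) - c a) := by
  induction t with
  | zero => simp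
  | succ t ih =>
    have e1 : c (a + t + 1) = c (a + t) + ℓ (y (a + t)) := h.step hℓ _
    have e3 : a + ((t + 1 : ℕ) : ℤ) = a + t + 1 := by push_cast; ring
    rw [e3, e1]
    have h1 : ((W : ℕ) : ℤ) ≤ R * ℓ (y (a + t)) := by exact_mod_cast hWR (y (a + t))
    push_cast
    nlinarith [h1, ih]

/-- the local period in the case of a given order of the two cuts -/
theorem local_aux {ψ : A → Finset (List A)} {ℓ : A → ℕ}
    (hℓ : HasLen ψ ℓ) {x y y' : ℤ → A} {c c' : ℤ → ℤ} (h : Parse ψ x y c)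
    (h' : Parse ψ x y' c') {R W : ℕ} (hR : 1 ≤ R) (hWR : ∀ a, W ≤ R * ℓ a) {a b : ℤ}
    (hl : ∀ t : ℕ, t < 3 * R → y (a + t) = y' (b + t))
    (hb : ∀ t : ℕ, t < 3 * R →
      wd x (c (a + t)) (ℓ (y (a + t))) = wd x (c' (b + t)) (ℓ (y (a + t))))
    {J : ℤ} (h1 : J ≤ c a) (h2 : c a < c' b) (h3 : c a < J + W)
    (h4 : 2 * (c' b - c a) ≤ W) :
    ∃ g : ℕ, 1 ≤ g ∧ 2 * g ≤ W ∧
      ∀ i : ℤ, J + W ≤ i → i + g < J + 3 * W → x (i + g) = x i := by
  have hg : (((c' b - c a).toNat : ℕ) : ℤ) = c' b - c a := Int.toNat_of_nonneg (by omega)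
  refine ⟨(c' b - c a).toNat, by omega, by omega, ?_⟩
  intro i hi1 hi2
  rw [hg] at hi2 ⊢
  obtain ⟨-, h5⟩ := same_run hℓ h h' hl hb (3 * R) le_rfl
  have h6 := run_length hℓ h hWR a (3 * R)
  have h7 : (3 : ℤ) * W ≤ c (a + ((3 * R : ℕ) : ℤ)) - c a := by
    by_contra hcon
    push Not at hcon
    have hR' : (0 : ℤ) < R := by exact_mod_cast hR
    have h8 := mul_lt_mul_of_pos_left hcon hR'
    push_cast at h6 h8
    nlinarith [h6, h8]
  have h8 := h5 (i - c a) (by omega) (by omega)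
  have e1 : c a + (i - c a) = i := by ring
  have e2 : c' b + (i - c a) = i + (c' b - c a) := by ring
  rw [e1, e2] at h8
  exact h8.symm

theorem local_periods [Finite A] {ψ : A → Finset (List A)} {ℓ : A → ℕ}
    (hℓ : HasLen ψ ℓ) {x : ℤ → A} {K R W : ℕ} (hW : 1 ≤ W) (hℓW : ∀ a, ℓ a ≤ W)
    (hWR : ∀ a, W ≤ R * ℓ a)
    (Y : Fin K → ℤ → A) (C : Fin K → ℤ → ℤ) (hP : ∀ s, Parse ψ x (Y s) (C s))
    (hdis : ∀ s t : Fin K, s ≠ t → ∀ i j : ℤ, C s i ≠ C t j)
    (hblock : ∀ (s t : Fin K) (i j : ℤ), 0 ≤ C s i → 0 ≤ C t j → Y s i = Y t j →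
      wd x (C s i) (ℓ (Y s i)) = wd x (C t j) (ℓ (Y s i)))
    (hK : 2 * Nat.card A ^ (3 * R) < K) (j : ℕ) :
    ∃ g : ℕ, 1 ≤ g ∧ 2 * g ≤ W ∧
      ∀ i : ℤ, ((j : ℤ) + 1) * W ≤ i → i + g < ((j : ℤ) + 3) * W → x (i + g) = x i := by
  classical
  have hR : 1 ≤ R := by
    have h1 := hWR (x 0)
    rcases Nat.eq_zero_or_pos R with h2 | h2
    · rw [h2, Nat.zero_mul] at h1
      omega
    · exact h2
  set J : ℤ := (j : ℤ) * W with hJ
  have hJ0 : 0 ≤ J := by positivity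
  have eJ1 : ((j : ℤ) + 1) * W = J + W := by rw [hJ]; ring
  have eJ3 : ((j : ℤ) + 3) * W = J + 3 * W := by rw [hJ]; ring
  rw [eJ1, eJ3]
  have hex : ∀ s : Fin K, ∃ i : ℤ, J ≤ C s i ∧ C s i < J + W := by
    intro s
    obtain ⟨i, hi1, hi2⟩ := (hP s).exists_index (J + W - 1)
    have h1 := (hP s).step hℓ i
    have h2 := hℓW (Y s i)
    exact ⟨i, by omega, by omega⟩
  choose I hI1 hI2 using hex
  haveI : Fintype A := Fintype.ofFinite A
  let f : Fin K → Bool × (Fin (3 * R) → A) := fun s =>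
    (decide (2 * C s (I s) < 2 * J + W + 1 - 1), fun t => Y s (I s + (t : ℕ)))
  have hcard : Fintype.card (Bool × (Fin (3 * R) → A)) < Fintype.card (Fin K) := by
    rw [Fintype.card_prod, Fintype.card_fun, Fintype.card_bool, Fintype.card_fin,
      Fintype.card_fin, ← Nat.card_eq_fintype_card (α := A)]
    exact hK
  obtain ⟨s, t, hst, hf⟩ := Fintype.exists_ne_map_eq_of_card_lt f hcard
  have hf1 : decide (2 * C s (I s) < 2 * J + W + 1 - 1)
      = decide (2 * C t (I t) < 2 * J + W + 1 - 1) := congrArg Prod.fst hf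
  have hf2 : ∀ m : ℕ, m < 3 * R → Y s (I s + m) = Y t (I t + m) := by
    intro m hm
    have := congrFun (congrArg Prod.snd hf) ⟨m, hm⟩
    exact this
  have hpos : ∀ (r : Fin K) (m : ℕ), 0 ≤ C r (I r + m) := by
    intro r m
    have h1 := (hP r).add_le (I r) m
    have h2 := hI1 r
    omega
  have hb2 : ∀ m : ℕ, m < 3 * R → wd x (C s (I s + m)) (ℓ (Y s (I s + m)))
      = wd x (C t (I t + m)) (ℓ (Y s (I s + m))) := fun m hm =>
    hblock s t _ _ (hpos s m) (hpos t m) (hf2 m hm)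
  have hhalf : 2 * C s (I s) < 2 * J + W + 1 - 1 ↔ 2 * C t (I t) < 2 * J + W + 1 - 1 :=
    decide_eq_decide.1 hf1
  have hne := hdis s t hst (I s) (I t)
  have a1 := hI1 s
  have a2 := hI2 s
  have a3 := hI1 t
  have a4 := hI2 t
  rcases lt_or_gt_of_ne hne with hlt | hlt
  · exact local_aux hℓ (hP s) (hP t) hR hWR hf2 hb2 a1 hlt a2 (by omega)
  · refine local_aux hℓ (hP t) (hP s) hR hWR (fun m hm => (hf2 m hm).symm)
      (fun m hm => ?_) a3 hlt a4 (by omega)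
    have := hb2 m hm
    rw [hf2 m hm] at this
    exact this.symm

end H35.RS.OS
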