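import Pool.Agent.H5.RS.OS0
import Pool.Agent.H35.RS.Basic2

/-!
# OS4: the lengths of the tiles of a level are comparable
-/

set_option autoImplicit false

namespace H35.RS.OS

open H35.RS H35.RS.Up

variable {A : Type*}

theorem length_imgW {ϑ : A → Finset (List A)} {ℓ : A → ℕ} (hℓ : HasLen ϑ ℓ) (u : List A) :
    ∀ v ∈ imgW ϑ u, v.length = (u.map ℓ).sum := by
  induction u with
  | nil =>
    intro v hv
    have h : v = [] := hv
    rw [h]
    simp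
  | cons a u ih =>
    rintro v ⟨s, hs, t, ht, rfl⟩
    rw [List.length_append, hℓ a s hs, ih t ht, List.map_cons, List.sum_cons]

theorem exists_ratio [Finite A] {ϑ : A → Finset (List A)} (hϑ : IsRandomSub ϑ)
    (hc : Compatible ϑ) (hp : Primitive ϑ) :
    ∃ R n₀ : ℕ, ∀ n : ℕ, n₀ ≤ n → ∀ ℓ : A → ℕ, HasLen (powF ϑ n) ℓ → ∀ a b, ℓ a ≤ R * ℓ b := by
  obtain ⟨p, hp1, hp⟩ := hp
  choose u hu using fun a => pow_nonempty hϑ p a
  have hmem : ∀ a b, a ∈ u b := by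
    intro a b
    obtain ⟨v, hv, hav⟩ := hp a b
    exact (pow_perm hϑ hc hv (hu b)).subset hav
  obtain ⟨C, hC⟩ : ∃ C : ℕ, ∀ a, (u a).length ≤ C := by
    obtain ⟨C, hC⟩ := (Set.finite_range (fun a => (u a).length)).bddAbove
    exact ⟨C, fun a => hC ⟨a, rfl⟩⟩
  refine ⟨C, p, fun n hn ℓ hℓ a b => ?_⟩
  obtain ⟨m, rfl⟩ : ∃ m, n = p + m := ⟨n - p, by omega⟩
  obtain ⟨ℓm, hℓm⟩ := hasLen_of_compatible (powF_isRandomSub hϑ m) (powF_compatible hϑ hc m)
  have hlen : ∀ a, ℓ a = ((u a).map ℓm).sum := by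
    intro a
    obtain ⟨v, hv⟩ := imgW_nonempty (powF_isRandomSub hϑ m) (u a)
    rw [← length_imgW hℓm (u a) v hv]
    exact (hℓ a v (mem_powF.2 (comp.2 ⟨u a, hu a, hv⟩))).symm
  have : Nonempty A := ⟨a⟩
  obtain ⟨m0, hm0⟩ := Finite.exists_max ℓm
  have h1 : ℓ a ≤ C * ℓm m0 := by
    rw [hlen a]
    have h2 := List.sum_le_card_nsmul ((u a).map ℓm) (ℓm m0) (by
      intro x hx
      obtain ⟨y, _, rfl⟩ := List.mem_map.1 hx
      exact hm0 y)
    rw [List.length_map, smul_eq_mul] at h2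
    exact h2.trans (Nat.mul_le_mul_right _ (hC a))
  have h3 : ℓm m0 ≤ ℓ b := by
    rw [hlen b]
    exact List.single_le_sum (fun _ _ => Nat.zero_le _) _ (List.mem_map.2 ⟨m0, hmem m0 b, rfl⟩)
  exact h1.trans (Nat.mul_le_mul_left _ h3)

end H35.RS.OS
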