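import Pool.Agent.H5.RS.OS0

/-!
# OS5: two disjoint desubstitutions, and many
-/

set_option autoImplicit false

namespace H35.RS.OS

open H35.RS H35.RS.Up

variable {A : Type*}

/-- if no point has a cut common to all its desubstitutions then every point has two
desubstitutions without a common cut -/
theorem two_disjoint [Finite A] {ϑ : A → Finset (List A)} (hϑ : IsRandomSub ϑ) {ℓ : A → ℕ}
    (hℓ : HasLen ϑ ℓ) (hR : AgreeRight ϑ) (hno : ∀ x ∈ subshift ϑ, ¬ Forced ϑ x)
    {x : ℤ → A} (hx : x ∈ subshift ϑ) :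
    ∃ (y : ℤ → A) (c : ℤ → ℤ) (y' : ℤ → A) (c' : ℤ → ℤ),
      Parse ϑ x y c ∧ Parse ϑ x y' c' ∧ ∀ i j, c i ≠ c' j := by
  obtain ⟨y, c, hP, -, -⟩ := exists_parse hϑ hℓ hx
  obtain ⟨L, hL⟩ : ∃ L : ℕ, ∀ a, ℓ a ≤ L := by
    obtain ⟨L, hL⟩ := (Set.finite_range ℓ).bddAbove
    exact ⟨L, fun a => hL ⟨a, rfl⟩⟩
  -- desubstitutions without the cuts `c j`, `j ≤ N`
  have key : ∀ N : ℤ, ∃ y' c', Parse ϑ x y' c' ∧ ∀ i j : ℤ, j ≤ N → c' i ≠ c j := by
    intro N
    have h1 := hno (sh (c N) x) (Cst.sh_mem hx (c N))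
    unfold Forced at h1
    push Not at h1
    obtain ⟨y', c', hP', hne⟩ := h1
    have h2 := hP'.shift (-(c N))
    have e : sh (-(c N)) (sh (c N) x) = x := by
      funext i
      simp only [sh_apply]
      congr 1
      ring
    rw [e] at h2
    refine ⟨y', _, h2, ?_⟩
    intro i j hj hij
    have h3 := hR x (sh i y') (fun t => (fun i => c' i - -(c N)) (t + i)) (sh j y)
      (fun t => c (t + j)) (h2.reindex i) (hP.reindex j) (by
        show c' (0 + i) - -(c N) = c (0 + j)
        rw [zero_add, zero_add]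
        exact hij) (N - j) (by omega)
    have h4 : c' (N - j + i) - -(c N) = c (N - j + j) := h3.1
    rw [sub_add_cancel] at h4
    exact hne (N - j + i) (by omega)
  obtain ⟨x1, y1, c1, -, -, -, h1, -, -, -, hQ⟩ := parse_compact hϑ hℓ L
    (fun N x1 _ c1 _ _ _ => (∀ i : ℤ, |i| ≤ (N : ℤ) → x1 i = x i) ∧
      ∀ i j : ℤ, |i| ≤ (N : ℤ) → |j| ≤ (N : ℤ) → c1 i ≠ c j)
    (by
      rintro N x1 y1 c1 x' y' c' ⟨h1, h2⟩
      refine ⟨fun i hi => h1 i ?_, fun i j hi hj => h2 i j ?_ ?_⟩ <;> push_cast <;> linarith)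
    (by
      intro N
      refine ⟨N, ?_⟩
      rintro x1 y1 c1 x' y' c' z w d z' w' d' h ⟨h1, h2⟩
      refine ⟨fun i hi => ?_, fun i j hi hj => ?_⟩
      · rw [← (h i hi).1]
        exact h1 i hi
      · rw [← (h i hi).2.2.1]
        exact h2 i j hi hj)
    (by
      intro N
      obtain ⟨y', c', hP', hne⟩ := key N
      obtain ⟨i₀, hi1, hi2⟩ := hP'.exists_index 0
      have hb : |(fun i => c' (i + i₀)) 0| ≤ (L : ℤ) := by
        have hs := hP'.step hℓ i₀
        have hb' : (ℓ (y' i₀) : ℤ) ≤ (L : ℤ) := by exact_mod_cast hL (y' i₀)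
        show |c' (0 + i₀)| ≤ (L : ℤ)
        rw [zero_add, abs_le]
        constructor <;> omega
      refine ⟨x, sh i₀ y', fun i => c' (i + i₀), x, sh i₀ y', fun i => c' (i + i₀),
        hP'.reindex i₀, hP'.reindex i₀, hb, hb, fun i _ => rfl, fun i j _ hj => ?_⟩
      exact hne (i + i₀) j (le_trans (le_abs_self j) hj))
  have hxx : x1 = x := by
    funext i
    exact (hQ i.natAbs).1 i (le_of_eq (Int.abs_eq_natAbs i))
  rw [hxx] at h1
  refine ⟨y1, c1, y, c, h1, hP, fun i j => ?_⟩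
  have hi := Int.abs_eq_natAbs i
  have hj := Int.abs_eq_natAbs j
  refine (hQ (i.natAbs + j.natAbs)).2 i j ?_ ?_
  · rw [hi]; exact_mod_cast Nat.le_add_right _ _
  · rw [hj]; exact_mod_cast Nat.le_add_left _ _

theorem many_disjoint [Finite A] {ϑ : A → Finset (List A)} (hϑ : IsRandomSub ϑ)
    (hp : Primitive ϑ)
    (h2 : ∀ x ∈ subshift ϑ, ∃ (y : ℤ → A) (c : ℤ → ℤ) (y' : ℤ → A) (c' : ℤ → ℤ),
      Parse ϑ x y c ∧ Parse ϑ x y' c' ∧ ∀ i j, c i ≠ c' j) (n : ℕ) :
    ∀ x ∈ subshift ϑ, ∃ (Y : Fin (2 ^ (n + 1)) → ℤ → A) (C : Fin (2 ^ (n + 1)) → ℤ → ℤ),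
      (∀ s, Parse (powF ϑ (n + 1)) x (Y s) (C s)) ∧
      ∀ s t, s ≠ t → ∀ i j : ℤ, C s i ≠ C t j := by
  induction n with
  | zero =>
    intro x hx
    obtain ⟨y, c, y', c', h1, h1', h3⟩ := h2 x hx
    refine ⟨fun s => if (s : ℕ) = 0 then y else y', fun s => if (s : ℕ) = 0 then c else c',
      ?_, ?_⟩
    · intro s
      show Parse (powF ϑ 1) x _ _
      rw [powF_one]
      by_cases hs : (s : ℕ) = 0
      · simp only [hs, if_true]
        exact h1
      · simp only [hs, if_false]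
        exact h1'
    · intro s t hst i j
      have hs : (s : ℕ) < 2 := lt_of_lt_of_eq s.2 (by norm_num)
      have ht : (t : ℕ) < 2 := lt_of_lt_of_eq t.2 (by norm_num)
      have hst' : (s : ℕ) ≠ (t : ℕ) := fun h => hst (Fin.ext h)
      by_cases hs0 : (s : ℕ) = 0
      · have ht0 : (t : ℕ) ≠ 0 := by omega
        simp only [hs0, ht0, if_true, if_false]
        exact h3 i j
      · have ht0 : (t : ℕ) = 0 := by omega
        simp only [hs0, ht0, if_true, if_false]
        exact fun h => h3 j i h.symm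
  | succ n ih =>
    intro x hx
    obtain ⟨y, c, y', c', h1, h1', h3⟩ := h2 x hx
    obtain ⟨Y0, C0, P0, D0⟩ := ih y h1.1
    obtain ⟨Y1, C1, P1, D1⟩ := ih y' h1'.1
    have e : Fin (2 ^ (n + 1 + 1)) ≃ Fin 2 × Fin (2 ^ (n + 1)) :=
      (finCongr (by ring)).trans finProdFinEquiv.symm
    refine ⟨fun s => if (e s).1 = 0 then Y0 (e s).2 else Y1 (e s).2,
      fun s => if (e s).1 = 0 then (fun i => c (C0 (e s).2 i)) else fun i => c' (C1 (e s).2 i),
      ?_, ?_⟩
    · intro s
      by_cases hs : (e s).1 = 0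
      · simp only [hs, if_true]
        exact h1.comp hϑ hp (by omega) (P0 _)
      · simp only [hs, if_false]
        exact h1'.comp hϑ hp (by omega) (P1 _)
    · intro s t hst i j
      have hst' : e s ≠ e t := fun h => hst (e.injective h)
      by_cases hs : (e s).1 = 0
      · by_cases ht : (e t).1 = 0
        · simp only [hs, ht, if_true]
          intro h
          refine D0 (e s).2 (e t).2 ?_ i j (h1.strictMono.injective h)
          intro h'
          exact hst' (Prod.ext (hs.trans ht.symm) h')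
        · simp only [hs, ht, if_true, if_false]
          exact h3 _ _
      · by_cases ht : (e t).1 = 0
        · simp only [hs, ht, if_true, if_false]
          exact fun h => h3 _ _ h.symm
        · simp only [hs, ht, if_false]
          intro h
          refine D1 (e s).2 (e t).2 ?_ i j (h1'.strictMono.injective h)
          intro h'
          refine hst' (Prod.ext ?_ h')
          have a1 := (e s).1.2
          have a2 := (e t).1.2
          have b1 : ((e s).1 : ℕ) ≠ 0 := fun h => hs (Fin.ext h)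
          have b2 : ((e t).1 : ℕ) ≠ 0 := fun h => ht (Fin.ext h)
          exact Fin.ext (by omega)

end H35.RS.OS
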