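import Pool.Agent.H5.RS.OS1
import Pool.Agent.H5.RS.OS2
import Pool.Agent.H5.RS.OS3
import Pool.Agent.H5.RS.OS4
import Pool.Agent.H5.RS.OS5
import Pool.Agent.H35.RS.Lex
import Pool.Agent.H35.RS.Unique

/-!
# Some point has a forced cut, and a synchronising pattern
-/

set_option autoImplicit false

namespace H35.RS.OS

open H35.RS H35.RS.Up

variable {A : Type*}

theorem exists_forced [Finite A] {ϑ : A → Finset (List A)} (hϑ : IsRandomSub ϑ)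
    (hc : Compatible ϑ) (hp : Primitive ϑ) (hne : (subshift ϑ).Nonempty)
    (hap : Aperiodic (subshift ϑ)) (hR : AgreeRight ϑ) :
    ∃ x ∈ subshift ϑ, Forced ϑ x := by
  classical
  by_contra hcon
  have hcon' : ∀ x ∈ subshift ϑ, ¬ Forced ϑ x := fun x hx hF => hcon ⟨x, hx, hF⟩
  obtain ⟨ℓ, hℓ⟩ := hasLen_of_compatible hϑ hc
  have h2 : ∀ x ∈ subshift ϑ, ∃ (y : ℤ → A) (c : ℤ → ℤ) (y' : ℤ → A) (c' : ℤ → ℤ),
      Parse ϑ x y c ∧ Parse ϑ x y' c' ∧ ∀ i j, c i ≠ c' j :=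
    fun x hx => two_disjoint hϑ hℓ hR hcon' hx
  obtain ⟨e, he⟩ : ∃ e : A → ℕ, Function.Injective e := by
    obtain ⟨n, ⟨e⟩⟩ := Finite.exists_equiv_fin A
    exact ⟨fun a => (e a : ℕ), fun a b h => e.injective (Fin.ext h)⟩
  obtain ⟨x, hx, hmin⟩ := lex_min (subshift ϑ) hne (fun x h => mem_subshift_of_local h) e
  obtain ⟨R, n₀, hRR⟩ := exists_ratio hϑ hc hp
  obtain ⟨n, hn1, hn2⟩ : ∃ n : ℕ, n₀ ≤ n + 1 ∧ 2 * Nat.card A ^ (3 * R) < 2 ^ (n + 1) := by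
    refine ⟨n₀ + 2 * Nat.card A ^ (3 * R), by omega, ?_⟩
    have h : n₀ + 2 * Nat.card A ^ (3 * R) + 1 < 2 ^ (n₀ + 2 * Nat.card A ^ (3 * R) + 1) :=
      Nat.lt_two_pow_self
    omega
  have hψ := powF_isRandomSub hϑ (n + 1)
  obtain ⟨ℓ', hℓ'⟩ := hasLen_of_compatible hψ (powF_compatible hϑ hc (n + 1))
  have hA : Nonempty A := ⟨x 0⟩
  obtain ⟨a₀, ha₀⟩ := Finite.exists_max ℓ'
  have hW : 1 ≤ ℓ' a₀ := HasLen.pos hℓ' hψ a₀
  have hWR : ∀ a, ℓ' a₀ ≤ R * ℓ' a := fun a => hRR (n + 1) hn1 ℓ' hℓ' a₀ a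
  obtain ⟨Y, C, hP, hdis⟩ := many_disjoint hϑ hp h2 n x hx
  have hmin' : ∀ x' ∈ subshift (powF ϑ (n + 1)), ∀ k : ℕ, (∀ i : ℕ, i < k → x' i = x i) →
      e (x k) ≤ e (x' k) := by
    rw [subshift_powF hϑ hp (by omega)]
    exact hmin
  obtain ⟨g, hg, hper⟩ := chain_periodic x (ℓ' a₀) hW
    (fun j => local_periods hℓ' hW ha₀ hWR Y C hP hdis
      (fun s t i j hi hj hij => lex_block hψ hℓ' e he hmin' (hP s) (hP t) hi hj hij) hn2 j)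
  obtain ⟨z, hz, hzp⟩ := exists_periodic hx hg hper
  exact hap z hz g hg hzp

theorem syncRight_of_agreeRight [Finite A] {ϑ : A → Finset (List A)} (hϑ : IsRandomSub ϑ)
    (hc : Compatible ϑ) (hp : Primitive ϑ) (hne : (subshift ϑ).Nonempty)
    (hap : Aperiodic (subshift ϑ)) (hR : AgreeRight ϑ) : SyncRight ϑ := by
  classical
  obtain ⟨x0, hx0, hF⟩ := exists_forced hϑ hc hp hne hap hR
  obtain ⟨ℓ, hℓ⟩ := hasLen_of_compatible hϑ hc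
  have hA : Nonempty A := ⟨x0 0⟩
  obtain ⟨a₀, ha₀⟩ := Finite.exists_max ℓ
  by_contra hcon
  have hex : ∀ n : ℕ, ∃ x y c, Near n x0 x ∧ Parse ϑ x y c ∧ ∀ i, c i ≠ 0 := by
    intro n
    by_contra h
    apply hcon
    refine ⟨x0, hx0, n, fun x hx hN => ⟨fun y c hP => ?_,
      fun y c y' c' h1 h2 h3 h4 i hi => hR x y c y' c' h1 h2 (h3.trans h4.symm) i hi⟩⟩
    by_contra hi
    exact h ⟨x, y, c, hN, hP, fun i hi' => hi ⟨i, hi'⟩⟩
  obtain ⟨x, y, c, x', y', c', h1, -, -, -, hQ⟩ := parse_compact hϑ hℓ (ℓ a₀)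
    (fun N x _ c _ _ _ => (∀ i : ℤ, -(N : ℤ) ≤ i → i < N → x i = x0 i) ∧
      ∀ i : ℤ, -(N : ℤ) ≤ i → i ≤ N → c i ≠ 0)
    (by
      rintro N x y c x' y' c' ⟨h1, h2⟩
      refine ⟨fun i hi hi' => h1 i ?_ ?_, fun i hi hi' => h2 i ?_ ?_⟩ <;> push_cast <;> omega)
    (by
      intro N
      refine ⟨N, ?_⟩
      rintro x y c x' y' c' z w d z' w' d' h ⟨h1, h2⟩
      refine ⟨fun i hi hi' => ?_, fun i hi hi' => ?_⟩
      · rw [← (h i (abs_le.2 ⟨by omega, by omega⟩)).1]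
        exact h1 i hi hi'
      · rw [← (h i (abs_le.2 ⟨by omega, by omega⟩)).2.2.1]
        exact h2 i hi hi')
    (by
      intro N
      obtain ⟨x, y, c, hN, hP, hi⟩ := hex N
      obtain ⟨i₀, hi1, hi2⟩ := hP.exists_index 0
      have hb : |(fun i => c (i + i₀)) 0| ≤ ((ℓ a₀ : ℕ) : ℤ) := by
        have hs := hP.step hℓ i₀
        have hb' : (ℓ (y i₀) : ℤ) ≤ (ℓ a₀ : ℤ) := by exact_mod_cast ha₀ (y i₀)
        show |c (0 + i₀)| ≤ ((ℓ a₀ : ℕ) : ℤ)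
        rw [zero_add, abs_le]
        constructor <;> omega
      exact ⟨x, sh i₀ y, fun i => c (i + i₀), x, sh i₀ y, fun i => c (i + i₀), hP.reindex i₀,
        hP.reindex i₀, hb, hb, fun i hi hi' => hN i hi hi', fun i _ _ => hi _⟩)
  have hxx : x = x0 := by
    funext i
    refine (hQ (i.natAbs + 1)).1 i ?_ ?_ <;> omega
  rw [hxx] at h1
  obtain ⟨i, hi⟩ := hF y c h1
  refine (hQ i.natAbs).2 i ?_ ?_ hi <;> omega

end H35.RS.OS
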