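import Pool.Agent.H5.RS.OS0
import Pool.Agent.H35.RS.DetermCore

/-!
# OS6: the deterministic case
-/

set_option autoImplicit false

namespace H35.RS.OS

open H35.RS H35.RS.Up

variable {A : Type*}

/-- the pattern of a synchronising point occurs arbitrarily far to the left -/
theorem near_left [Finite A] {ϑ : A → Finset (List A)} (hϑ : IsRandomSub ϑ)
    (hp : Primitive ϑ) (hdet : ∀ a, ∀ v ∈ ϑ a, ∀ v' ∈ ϑ a, v = v') {x0 x : ℤ → A}
    (hx0 : x0 ∈ subshift ϑ) (hx : x ∈ subshift ϑ) (n : ℕ) (B : ℤ) :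
    ∃ p : ℤ, p ≤ B ∧ Near n x0 (sh p x) := by
  obtain ⟨N₀, hN⟩ := Up.reach hϑ hp (hx0 (-(n : ℤ)) (2 * n))
  obtain ⟨ℓN, hℓN⟩ : ∃ ℓN : A → ℕ, HasLen (powF ϑ (N₀ + 1)) ℓN := by
    choose w hw using fun a => (powF_isRandomSub hϑ (N₀ + 1) a).1
    exact ⟨fun a => (w a).length, fun a v hv => by
      rw [Det.pow_det hdet (N₀ + 1) a v (mem_powF.1 hv) (w a) (mem_powF.1 (hw a))]⟩
  have hx' : x ∈ subshift (powF ϑ (N₀ + 1)) := by
    rw [subshift_powF hϑ hp (by omega)]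
    exact hx
  obtain ⟨z, d, hP, hd0, -⟩ := exists_parse (powF_isRandomSub hϑ (N₀ + 1)) hℓN hx'
  set m : ℕ := (n + 1 - B).toNat with hm
  have hi1 := hP.add_le (-(m : ℤ)) m
  rw [neg_add_cancel] at hi1
  have hi2 : d (-(m : ℤ) - 1 + 1) = d (-(m : ℤ) - 1) + ℓN (z (-(m : ℤ) - 1)) :=
    hP.step hℓN _
  have e1 : (-(m : ℤ) - 1 + 1) = -(m : ℤ) := by ring
  rw [e1] at hi2
  have htile := mem_powF.1 (hP.tile hℓN (-(m : ℤ) - 1))
  obtain ⟨v, hv, s, t, hst⟩ := hN (N₀ + 1) (by omega) (z (-(m : ℤ) - 1))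
  have h := Det.pow_det hdet (N₀ + 1) _ _ htile _ hv
  subst hst
  have hl : (s ++ wd x0 (-(n : ℤ)) (2 * n) ++ t).length = ℓN (z (-(m : ℤ) - 1)) :=
    hℓN _ _ (mem_powF.2 hv)
  rw [← hl] at h
  have h2 := Uv.wd_of_append h
  rw [wd_length] at h2
  rw [List.length_append, List.length_append, wd_length] at hl
  refine ⟨d (-(m : ℤ) - 1) + s.length + n, by omega, ?_⟩
  intro i hi1 hi2
  have h3 := Cst.wd_eq_iff h2 (i + n).toNat (by omega) (by push_cast; omega)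
  rw [sh_apply]
  have e2 : i + (d (-(m : ℤ) - 1) + s.length + n)
      = d (-(m : ℤ) - 1) + s.length + ((i + n).toNat : ℤ) := by
    have : (((i + n).toNat : ℕ) : ℤ) = i + n := Int.toNat_of_nonneg (by omega)
    rw [this]
    ring
  have e3 : (-(n : ℤ)) + ((i + n).toNat : ℤ) = i := by
    have : (((i + n).toNat : ℕ) : ℤ) = i + n := Int.toNat_of_nonneg (by omega)
    rw [this]
    ring
  rw [e2, h3, e3]

theorem unique_of_det [Finite A] {ϑ : A → Finset (List A)} (hϑ : IsRandomSub ϑ) {ℓ : A → ℕ}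
    (hℓ : HasLen ϑ ℓ) (hp : Primitive ϑ) (hdet : ∀ a, ∀ v ∈ ϑ a, ∀ v' ∈ ϑ a, v = v')
    (hS : SyncRight ϑ) : UniqueParse ϑ := by
  obtain ⟨x0, hx0, n, hsync⟩ := hS
  intro x y c y' c' h h'
  have hx : x ∈ subshift ϑ := h.mem hϑ
  have key : ∀ B : ℤ, ∃ p : ℤ, p ≤ B ∧ ∃ i i' : ℤ, c i = p ∧ c' i' = p ∧
      ∀ j : ℤ, 0 ≤ j → c (j + i) = c' (j + i') ∧ y (j + i) = y' (j + i') := by
    intro B
    obtain ⟨p, hpB, hnear⟩ := near_left hϑ hp hdet hx0 hx n B
    obtain ⟨hs1, hs2⟩ := hsync (sh p x) (Cst.sh_mem hx p) hnear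
    obtain ⟨i, hi⟩ := hs1 _ _ (h.shift p)
    obtain ⟨i', hi'⟩ := hs1 _ _ (h'.shift p)
    refine ⟨p, hpB, i, i', by omega, by omega, ?_⟩
    intro j hj
    have h1 := hs2 _ _ _ _ ((h.shift p).reindex i) ((h'.shift p).reindex i')
      (by simpa using hi) (by simpa using hi') j hj
    obtain ⟨h2, h3⟩ := h1
    refine ⟨by simpa using h2, by simpa [sh_apply] using h3⟩
  obtain ⟨p0, -, i0, i0', hc0, hc0', -⟩ := key 0
  refine ⟨i0 - i0', ?_⟩
  intro i
  obtain ⟨p, hpB, i1, i1', hc1, hc1', hj⟩ := key (min p0 (c' i))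
  have hm := h.strictMono
  have hm' := h'.strictMono
  have hp1 : p ≤ p0 := hpB.trans (min_le_left _ _)
  have hp2 : p ≤ c' i := hpB.trans (min_le_right _ _)
  have h1 : i1' ≤ i := hm'.le_iff_le.1 (by rw [hc1']; exact hp2)
  have h2 : i1 ≤ i0 := hm.le_iff_le.1 (by rw [hc1, hc0]; exact hp1)
  have h3 := (hj (i0 - i1) (by omega)).1
  have e1 : i0 - i1 + i1 = i0 := by ring
  rw [e1, hc0, ← hc0'] at h3
  have h4 := hm'.injective h3
  have h5 := hj (i - i1') (by omega)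
  have e2 : i - i1' + i1' = i := by ring
  have e3 : i - i1' + i1 = i + (i0 - i0') := by omega
  rw [e2, e3] at h5
  exact ⟨h5.1.symm, h5.2.symm⟩

theorem recognisable_of_unique [Finite A] {ϑ : A → Finset (List A)} (hϑ : IsRandomSub ϑ)
    {ℓ : A → ℕ} (hℓ : HasLen ϑ ℓ) (hU : UniqueParse ϑ) : Recognisable ϑ := by
  intro x hx
  obtain ⟨y, c, hP, h0, h1⟩ := exists_parse hϑ hℓ hx
  have hk : (((-c 0).toNat : ℕ) : ℤ) = -c 0 := Int.toNat_of_nonneg (by omega)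
  have hs0 : c (0 + 1) = c 0 + ℓ (y 0) := hP.step hℓ 0
  rw [zero_add] at hs0
  refine ⟨(y, (-c 0).toNat), ⟨hP.1, ⟨_, hP.tile hℓ 0, ?_⟩, ?_⟩, ?_⟩
  · show (-c 0).toNat < _
    rw [wd_length]
    omega
  · refine ⟨fun i => wd x (c i) (ℓ (y i)), fun i => c i - c 0, fun i => hP.tile hℓ i,
      by simp, fun i => ?_, fun i => ?_⟩
    · show c (i + 1) - c 0 = c i - c 0 + ((wd x (c i) (ℓ (y i))).length : ℤ)
      rw [wd_length, hP.step hℓ i]
      ring
    · show wd (sh (-(((-c 0).toNat : ℕ) : ℤ)) x) (c i - c 0) (wd x (c i) (ℓ (y i))).length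
        = wd x (c i) (ℓ (y i))
      rw [wd_length, wd_sh, hk]
      congr 1
      ring
  · rintro ⟨y', k'⟩ ⟨hy', ⟨v, hv, hkv⟩, u, d, hu, hd0, hd, hw⟩
    have hlen : ∀ i, (u i).length = ℓ (y' i) := fun i => hℓ _ _ (hu i)
    have hkv' : k' < ℓ (y' 0) := by
      rw [← hℓ _ _ hv]
      exact hkv
    have hP' : Parse ϑ x y' (fun i => d i - k') := by
      refine Parse.mk' hℓ hϑ hy' (fun i => ?_) (fun i => ?_)
      · show d (i + 1) - (k' : ℤ) = d i - k' + ℓ (y' i)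
        rw [hd i, hlen i]
        ring
      · have h2 := hw i
        rw [wd_sh, hlen i] at h2
        have h3 := hu i
        rw [← h2] at h3
        exact h3
    obtain ⟨m, hm⟩ := hU _ _ _ _ _ hP hP'
    have hd1 : d (0 + 1) = d 0 + ((u 0).length : ℤ) := hd 0
    rw [zero_add, hlen 0, hd0] at hd1
    have hm0 : d 0 - (k' : ℤ) = c (0 + m) := (hm 0).1
    have hm1 : d 1 - (k' : ℤ) = c (1 + m) := (hm 1).1
    have a1 : 0 + m < 1 := hP.strictMono.lt_iff_lt.1 (by omega)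
    have a2 : 0 < 1 + m := hP.strictMono.lt_iff_lt.1 (by omega)
    have hm' : m = 0 := by omega
    subst hm'
    have hy : y' = y := by
      funext i
      have := (hm i).2
      rw [add_zero] at this
      exact this
    have hk' : k' = (-c 0).toNat := by
      rw [add_zero] at hm0
      omega
    rw [hy, hk']

end H35.RS.OS
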