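import Pool.Agent.H5.RS.OS0
import Pool.Agent.H35.RS.Unique

/-!
# OS7: the one-sided gates
-/

set_option autoImplicit false

namespace H35.RS.OS

open H35.RS H35.RS.Up

variable {A : Type*}

/-- every letter is syndetic -/
theorem syndetic' [Finite A] {ϑ : A → Finset (List A)} (hϑ : IsRandomSub ϑ)
    (hc : Compatible ϑ) (hp : Primitive ϑ) (b : A) :
    ∃ G : ℕ, ∀ y ∈ subshift ϑ, ∀ k : ℤ, ∃ i, k ≤ i ∧ i < k + G ∧ y i = b := by
  obtain ⟨p, hp1, hpp⟩ := id hp
  have hψ := powF_isRandomSub hϑ p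
  obtain ⟨ℓ, hℓ⟩ := hasLen_of_compatible hψ (powF_compatible hϑ hc p)
  obtain ⟨L, hL⟩ : ∃ L : ℕ, ∀ a, ℓ a ≤ L := by
    obtain ⟨L, hL⟩ := (Set.finite_range ℓ).bddAbove
    exact ⟨L, fun a => hL ⟨a, rfl⟩⟩
  refine ⟨2 * L + 1, fun y hy k => ?_⟩
  rw [← subshift_powF hϑ hp hp1] at hy
  obtain ⟨z, c, hP, -, -⟩ := exists_parse hψ hℓ hy
  obtain ⟨i, hi1, hi2⟩ := hP.exists_index k
  have h1 := hP.step hℓ i
  have h2 := hP.step hℓ (i + 1)
  have h3 : (ℓ (z i) : ℤ) ≤ L := by exact_mod_cast hL (z i)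
  have h4 : (ℓ (z (i + 1)) : ℤ) ≤ L := by exact_mod_cast hL (z (i + 1))
  obtain ⟨v, hv, hbv⟩ := hpp b (z (i + 1))
  have h5 := mem_powF.1 (hP.tile hℓ (i + 1))
  have hb : b ∈ wd y (c (i + 1)) (ℓ (z (i + 1))) := (pow_perm hϑ hc hv h5).mem_iff.1 hbv
  obtain ⟨j, hj1, hj2, hj3⟩ := Syn.mem_wd hb
  exact ⟨j, by omega, by push_cast; omega, hj3⟩

namespace G7

/-- the data of a right synchronising pattern -/
def SR (ϑ : A → Finset (List A)) (x0 : ℤ → A) (n : ℕ) : Prop :=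
  ∀ x ∈ subshift ϑ, Near n x0 x →
    (∀ y c, Parse ϑ x y c → ∃ i, c i = 0) ∧
    ∀ (y : ℤ → A) (c : ℤ → ℤ) (y' : ℤ → A) (c' : ℤ → ℤ), Parse ϑ x y c → Parse ϑ x y' c' →
      c 0 = 0 → c' 0 = 0 → ∀ i : ℤ, 0 ≤ i → c i = c' i ∧ y i = y' i

theorem near_sh {n : ℕ} {x0 x : ℤ → A} {p : ℤ} (h : Cst.Mk x0 n x p) : Near n x0 (sh p x) := by
  intro i hi1 hi2
  rw [sh_apply, add_comm]
  exact h i hi1 hi2

/-- a mark is a cut of every desubstitution -/
theorem cut_of_mark {ϑ : A → Finset (List A)} (hϑ : IsRandomSub ϑ) {x0 : ℤ → A} {n : ℕ}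
    (hS : SR ϑ x0 n) {x y : ℤ → A} {c : ℤ → ℤ} (h : Parse ϑ x y c) {p : ℤ}
    (hm : Cst.Mk x0 n x p) : ∃ i, c i = p := by
  have hx := h.mem hϑ
  obtain ⟨i, hi⟩ := (hS (sh p x) (Cst.sh_mem hx p) (near_sh hm)).1 _ _ (h.shift p)
  exact ⟨i, by omega⟩

/-- renumbering so that the mark has number zero -/
theorem parse_at_mark [Finite A] {ϑ : A → Finset (List A)} (hϑ : IsRandomSub ϑ) {ℓ : A → ℕ}
    (hℓ : HasLen ϑ ℓ) {x0 : ℤ → A} {n : ℕ}
    (hS : SR ϑ x0 n) {x : ℤ → A} (hx : x ∈ subshift ϑ) {p : ℤ} (hm : Cst.Mk x0 n x p) :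
    ∃ y c, Parse ϑ x y c ∧ c 0 = p := by
  obtain ⟨y, c, h, -, -⟩ := exists_parse hϑ hℓ hx
  obtain ⟨i, hi⟩ := cut_of_mark hϑ hS h hm
  exact ⟨_, _, h.reindex i, by simp only [zero_add]; exact hi⟩

/-- The first letters to the right of a mark depend on a bounded window. -/
theorem loc [Finite A] {ϑ : A → Finset (List A)} (hϑ : IsRandomSub ϑ) {ℓ : A → ℕ}
    (hℓ : HasLen ϑ ℓ) {x0 : ℤ → A} {n : ℕ} (hS : SR ϑ x0 n) (m : ℕ) :
    ∃ r : ℕ, ∀ (x y : ℤ → A) (c : ℤ → ℤ) (x' y' : ℤ → A) (c' : ℤ → ℤ),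
      Parse ϑ x y c → Parse ϑ x' y' c' → c 0 = 0 → c' 0 = 0 → Near n x0 x →
      (∀ i : ℤ, -(r : ℤ) ≤ i → i < r → x i = x' i) →
      ∀ i : ℤ, 0 ≤ i → i ≤ m → c i = c' i ∧ y i = y' i := by
  by_contra hcon
  push Not at hcon
  obtain ⟨x, y, c, x', y', c', h1, h2, -, -, h3⟩ := parse_compact hϑ hℓ 0
    (fun N x y c x' y' c' => Near n x0 x ∧ (∀ i : ℤ, -(N : ℤ) ≤ i → i < N → x i = x' i) ∧
      c 0 = 0 ∧ c' 0 = 0 ∧ ∃ i : ℤ, 0 ≤ i ∧ i ≤ m ∧ (c i = c' i → y i ≠ y' i))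
    (by
      rintro N x y c x' y' c' ⟨h1, h2, h3⟩
      exact ⟨h1, fun i hi1 hi2 => h2 i (by push_cast; omega) (by push_cast; omega), h3⟩)
    (by
      intro N
      refine ⟨n + N + m, ?_⟩
      rintro x y c x' y' c' z w d z' w' d' hh ⟨h1, h2, h3, h4, i, hi1, hi2, hi3⟩
      have hr : ∀ i : ℤ, |i| ≤ (n : ℤ) + N + m → x i = z i ∧ y i = w i ∧ c i = d i ∧
        x' i = z' i ∧ y' i = w' i ∧ c' i = d' i := fun i hi => hh i (by push_cast; linarith)
      have hm0 : (0 : ℤ) ≤ m := by positivity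
      have hn0 : (0 : ℤ) ≤ n := by positivity
      have hN0 : (0 : ℤ) ≤ N := by positivity
      refine ⟨?_, ?_, ?_, ?_, i, hi1, hi2, ?_⟩
      · intro k hk1 hk2
        rw [← (hr k (by rw [abs_le]; constructor <;> omega)).1]
        exact h1 k hk1 hk2
      · intro k hk1 hk2
        have := hr k (by rw [abs_le]; constructor <;> omega)
        rw [← this.1, ← this.2.2.2.1]
        exact h2 k hk1 hk2
      · rw [← (hr 0 (by rw [abs_zero]; omega)).2.2.1]
        exact h3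
      · rw [← (hr 0 (by rw [abs_zero]; omega)).2.2.2.2.2]
        exact h4
      · have := hr i (by rw [abs_le]; constructor <;> omega)
        rw [← this.2.1, ← this.2.2.1, ← this.2.2.2.2.1, ← this.2.2.2.2.2]
        exact hi3)
    (by
      intro N
      obtain ⟨x, y, c, x', y', c', h1, h2, h3, h4, h5, h6, i, hi1, hi2, hi3⟩ := hcon N
      exact ⟨x, y, c, x', y', c', h1, h2, by rw [h3]; simp, by rw [h4]; simp,
        h5, h6, h3, h4, i, hi1, hi2, hi3⟩)
  have hxx : x = x' := by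
    funext i
    exact (h3 (i.natAbs + 1)).2.1 i (by omega) (by omega)
  subst hxx
  obtain ⟨hn, -, hc, hc', i, hi1, hi2, hi3⟩ := h3 0
  obtain ⟨h4, h5⟩ := (hS x (h1.mem hϑ) hn).2 y c y' c' h1 h2 hc hc' i hi1
  exact hi3 h4 h5

/-- No point is periodic to the right for a long time. -/
theorem aper [Finite A] {ϑ : A → Finset (List A)} (hap : Aperiodic (subshift ϑ)) (k : ℕ)
    (hk : 1 ≤ k) : ∃ N : ℕ, ∀ y ∈ subshift ϑ, ¬ ∀ j : ℤ, 0 ≤ j → j < N → y j = y (j + k) := by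
  by_contra hcon
  push Not at hcon
  obtain ⟨y, hy⟩ := Cst.compact_seq
    (fun N y => Legal ϑ (wd y (-(N : ℤ)) (2 * N)) ∧ ∀ j : ℤ, 0 ≤ j → j < N → y j = y (j + k))
    (by
      rintro N y ⟨h1, h2⟩
      exact ⟨Cst.legal_mono h1, fun j hj1 hj2 => h2 j hj1 (by push_cast; omega)⟩)
    (by
      intro N
      obtain ⟨y, hy, h⟩ := hcon N
      exact ⟨y, hy _ _, h⟩)
    (by
      intro N
      refine ⟨N + k, ?_⟩
      rintro y y' hyy ⟨h1, h2⟩
      constructor
      · have e : wd y' (-(N : ℤ)) (2 * N) = wd y (-(N : ℤ)) (2 * N) := by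
          apply Cst.wd_congr'
          intro l hl1 hl2
          refine (hyy _ ?_).symm
          push_cast at hl2 ⊢
          rw [abs_le]
          constructor <;> omega
        rw [e]
        exact h1
      · intro j hj1 hj2
        rw [← hyy j (by push_cast; rw [abs_le]; constructor <;> omega),
          ← hyy (j + k) (by push_cast; rw [abs_le]; constructor <;> omega)]
        exact h2 j hj1 hj2)
  have hyX : y ∈ subshift ϑ := Cst.mem_of_legal fun n => (hy n).1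
  obtain ⟨z, hz, hzp⟩ := exists_periodic hyX hk (i₀ := 0) (fun i hi =>
    ((hy (i.natAbs + 1)).2 i hi (by omega)).symm)
  exact hap z hz k hk hzp

/-! ### Types -/

/-- the letters of a desubstitution to the right of a mark, read off from a window -/
def T (ϑ : A → Finset (List A)) (rad : ℕ → ℕ) (M : ℕ) (x : ℤ → A) (p : ℤ) :
    Set (Fin M → A) :=
  {t | ∃ (x' y : ℤ → A) (c : ℤ → ℤ), Parse ϑ x' y c ∧ c 0 = 0 ∧
    (∀ i : ℤ, -(rad M : ℤ) ≤ i → i < rad M → x' i = x (p + i)) ∧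
    ∀ j : Fin M, y (j.1 : ℕ) = t j}

/-- the types of level `N` -/
abbrev Ty (A : Type*) (N : ℕ) := (M : Fin (N + 1)) → Set (Fin M.1 → A)

def ty (ϑ : A → Finset (List A)) (rad : ℕ → ℕ) (N : ℕ) (x : ℤ → A) (p : ℤ) : Ty A N :=
  fun M => T ϑ rad M.1 x p

theorem T_congr {ϑ : A → Finset (List A)} {rad : ℕ → ℕ} {M : ℕ} {x x' : ℤ → A} {p p' : ℤ}
    (h : ∀ i : ℤ, -(rad M : ℤ) ≤ i → i < rad M → x (p + i) = x' (p' + i)) :
    T ϑ rad M x p = T ϑ rad M x' p' := by
  ext t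
  constructor
  · rintro ⟨z, y, c, h1, h2, h3, h4⟩
    exact ⟨z, y, c, h1, h2, fun i hi1 hi2 => (h3 i hi1 hi2).trans (h i hi1 hi2), h4⟩
  · rintro ⟨z, y, c, h1, h2, h3, h4⟩
    exact ⟨z, y, c, h1, h2, fun i hi1 hi2 => (h3 i hi1 hi2).trans (h i hi1 hi2).symm, h4⟩

/-- the property of the radii -/
def Rad (ϑ : A → Finset (List A)) (x0 : ℤ → A) (n : ℕ) (rad : ℕ → ℕ) : Prop :=
  ∀ (m : ℕ) (x y : ℤ → A) (c : ℤ → ℤ) (x' y' : ℤ → A) (c' : ℤ → ℤ),
      Parse ϑ x y c → Parse ϑ x' y' c' → c 0 = 0 → c' 0 = 0 → Near n x0 x →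
      (∀ i : ℤ, -(rad m : ℤ) ≤ i → i < rad m → x i = x' i) →
      ∀ i : ℤ, 0 ≤ i → i ≤ m → c i = c' i ∧ y i = y' i

theorem T_eq {ϑ : A → Finset (List A)} {x0 : ℤ → A} {n : ℕ}
    {rad : ℕ → ℕ} (hrad : Rad ϑ x0 n rad) {x y : ℤ → A} {c : ℤ → ℤ} (h : Parse ϑ x y c) {p : ℤ}
    (hp : c 0 = p) (hm : Cst.Mk x0 n x p) (M : ℕ) :
    T ϑ rad M x p = {fun j : Fin M => y (j.1 : ℕ)} := by
  ext t
  rw [Set.mem_singleton_iff]
  constructor
  · rintro ⟨z, w, d, h1, h2, h3, h4⟩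
    funext j
    rw [← h4 j]
    have h5 := hrad M (sh p x) y (fun i => c i - p) z w d (h.shift p) h1
      (by show c 0 - p = 0; omega) h2
      (near_sh hm) (by
        intro i hi1 hi2
        rw [sh_apply, add_comm]
        exact (h3 i hi1 hi2).symm) (j.1 : ℕ) (by positivity) (by have := j.2; omega)
    exact h5.2.symm
  · rintro rfl
    refine ⟨sh p x, y, fun i => c i - p, h.shift p, by show c 0 - p = 0; omega, ?_,
      fun j => rfl⟩
    intro i _ _
    rw [sh_apply, add_comm]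

theorem ty_eq {ϑ : A → Finset (List A)} {x0 : ℤ → A} {n : ℕ}
    {rad : ℕ → ℕ} (hrad : Rad ϑ x0 n rad) {x x' y : ℤ → A} {c : ℤ → ℤ} (h : Parse ϑ x y c)
    (h' : Parse ϑ x' y c) {k p : ℤ} (hp : c k = p) (hm : Cst.Mk x0 n x p)
    (hm' : Cst.Mk x0 n x' p) (N : ℕ) :
    ty ϑ rad N x' p = ty ϑ rad N x p := by
  funext M
  show T ϑ rad M.1 x' p = T ϑ rad M.1 x p
  rw [T_eq hrad (h.reindex k) (p := p) (by simp only [zero_add]; exact hp) hm M.1,
    T_eq hrad (h'.reindex k) (p := p) (by simp only [zero_add]; exact hp) hm' M.1]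

theorem sep_gate [Finite A] {ϑ : A → Finset (List A)} (hϑ : IsRandomSub ϑ) {ℓ : A → ℕ}
    (hℓ : HasLen ϑ ℓ) (hap : Aperiodic (subshift ϑ)) {x0 : ℤ → A} {n : ℕ} (hS : SR ϑ x0 n)
    {rad : ℕ → ℕ} (hrad : Rad ϑ x0 n rad) (q : ℕ) :
    ∃ N, ∀ x ∈ subshift ϑ, ∀ p p', Cst.Mk x0 n x p → Cst.Mk x0 n x p' →
      ty ϑ rad N x p = ty ϑ rad N x p' → p ≠ p' → 2 * ((q * 1 : ℕ) : ℤ) ≤ |p - p'| := by
  choose! N hN using fun k hk => aper (ϑ := ϑ) hap k hk
  have key : ∀ x ∈ subshift ϑ, ∀ p p', Cst.Mk x0 n x p → Cst.Mk x0 n x p' →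
      ty ϑ rad ((Finset.range (2 * q + 1)).sup N) x p =
        ty ϑ rad ((Finset.range (2 * q + 1)).sup N) x p' → p < p' →
      2 * (q : ℤ) ≤ p' - p := by
    intro x hx p p' hm hm' hty hlt
    by_contra hcon
    push Not at hcon
    obtain ⟨y, c, h, hc0⟩ := parse_at_mark hϑ hℓ hS hx hm
    obtain ⟨k, hk⟩ := cut_of_mark hϑ hS h hm'
    have hk0 : 0 < k := by
      have : c 0 < c k := by omega
      exact h.strictMono.lt_iff_lt.1 this
    obtain ⟨m, rfl⟩ : ∃ m : ℕ, k = m := ⟨k.toNat, by omega⟩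
    have h1 := h.add_le 0 m
    rw [zero_add] at h1
    have hm1 : 1 ≤ m := by omega
    have hm2 : m < 2 * q + 1 := by omega
    have hle : N m ≤ (Finset.range (2 * q + 1)).sup N :=
      Finset.le_sup (f := N) (Finset.mem_range.2 hm2)
    apply hN m hm1 y h.1
    intro j hj1 hj2
    have h2 := congrFun hty ⟨N m, by omega⟩
    have h3 : T ϑ rad (N m) x p = T ϑ rad (N m) x p' := h2
    rw [T_eq hrad h hc0 hm, T_eq hrad (h.reindex m) (p := p') (by simp only [zero_add]; exact hk)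
      hm'] at h3
    have h4 := Set.singleton_injective h3
    have h5 := congrFun h4 ⟨j.toNat, by omega⟩
    simp only [sh_apply] at h5
    rw [Int.toNat_of_nonneg hj1] at h5
    exact h5
  refine ⟨(Finset.range (2 * q + 1)).sup N, ?_⟩
  intro x hx p p' hm hm' hty hne
  rw [mul_one]
  rcases lt_or_gt_of_ne hne with h | h
  · have := key x hx p p' hm hm' hty h
    rw [abs_sub_comm, abs_of_pos (by omega)]
    exact this
  · have := key x hx p' p hm' hm hty.symm h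
    rw [abs_of_pos (by omega)]
    exact this

/-! ### The relation -/

/-- Equivalence of contents: nothing changes to the left of `n`, and the desubstitutions are the
same. -/
def Rel (ϑ : A → Finset (List A)) (n q : ℕ) (V V' : Cont A (q * 1)) : Prop :=
  ∀ z : ℤ → A,
    (∀ j : ℤ, j < n → Cst.ext (q * 1) z V j = Cst.ext (q * 1) z V' j) ∧
    ∀ y c, Parse ϑ (Cst.ext (q * 1) z V) y c ↔ Parse ϑ (Cst.ext (q * 1) z V') y c

theorem rel_equiv (ϑ : A → Finset (List A)) (n q : ℕ) : Equivalence (Rel ϑ n q) where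
  refl := fun _ _ => ⟨fun _ _ => rfl, fun _ _ => Iff.rfl⟩
  symm := fun h z => ⟨fun j hj => ((h z).1 j hj).symm, fun y c => ((h z).2 y c).symm⟩
  trans := fun h h' z =>
    ⟨fun j hj => ((h z).1 j hj).trans ((h' z).1 j hj),
      fun y c => ((h z).2 y c).trans ((h' z).2 y c)⟩

theorem rel_left {ϑ : A → Finset (List A)} {n q : ℕ} {x : ℤ → A} {p : ℤ} {V : Cont A (q * 1)}
    (h : Rel ϑ n q (cont (q * 1) x p) V) {j : ℤ} (hj : j - p < n)
    (hin : j - p ∈ Finset.Ico (-((q * 1 : ℕ) : ℤ)) ((q * 1 : ℕ) : ℤ)) : V ⟨j - p, hin⟩ = x j := by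
  have h1 := (h x).1 (j - p) hj
  rw [Cst.ext_in hin, Cst.ext_in hin] at h1
  rw [← h1]
  show x (p + (j - p)) = x j
  congr 1
  ring

/-- The modified sequence has the same desubstitutions. -/
theorem modif_parse {ϑ : A → Finset (List A)} (hϑ : IsRandomSub ϑ) {ℓ : A → ℕ}
    (hℓ : HasLen ϑ ℓ) {x0 : ℤ → A} {n : ℕ} (hS : SR ϑ x0 n) {q : ℕ}
    {S : ℤ → Prop} (hSep : Sep (q * 1) S) {x : ℤ → A} (hSm : ∀ p, S p → Cst.Mk x0 n x p)
    {V : ℤ → Cont A (q * 1)} (hR : ∀ p, S p → Rel ϑ n q (cont (q * 1) x p) (V p))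
    {y : ℤ → A} {d : ℤ → ℤ} (h : Parse ϑ x y d) : Parse ϑ (modif (q * 1) S V x) y d := by
  have hmono := h.strictMono
  have hcut : ∀ p, S p → ∃ k, d k = p := fun p hp => cut_of_mark hϑ hS h (hSm p hp)
  refine h.congr hℓ fun i => ?_
  have hstep := h.step hℓ i
  by_cases hex : ∃ p, S p ∧ p + n < d (i + 1) ∧ d i < p + q
  · obtain ⟨p, hp, h1, h2⟩ := hex
    obtain ⟨k, hk⟩ := hcut p hp
    have hki : k ≤ i := by
      have h3 : d k < d (i + 1) := by omega
      have h4 := hmono.lt_iff_lt.1 h3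
      omega
    have hpi : p ≤ d i := by rw [← hk]; exact hmono.monotone hki
    -- the modification at `p` alone
    have h5 : Parse ϑ (Cst.ext (q * 1) (fun j => x (p + j)) (V p)) y (fun i => d i - p) := by
      refine ((hR p hp (fun j => x (p + j))).2 y (fun i => d i - p)).1 ?_
      rw [Cst.ext_self]
      have h6 := h.shift p
      have e : (fun j => x (p + j)) = sh p x := by
        funext j
        rw [sh_apply, add_comm]
      rw [e]
      exact h6
    have h6 := h5.tile hℓ i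
    have e : wd (modif (q * 1) S V x) (d i) (ℓ (y i)) =
        wd (Cst.ext (q * 1) (fun j => x (p + j)) (V p)) (d i - p) (ℓ (y i)) := by
      apply Cst.wd_congr'
      intro t ht1 ht2
      obtain ⟨j, hj⟩ : ∃ j : ℤ, j = d i + t := ⟨_, rfl⟩
      have e1 : d i - p + t = j - p := by rw [hj]; ring
      rw [e1, ← hj]
      by_cases hin : j - p ∈ Finset.Ico (-((q * 1 : ℕ) : ℤ)) ((q * 1 : ℕ) : ℤ)
      · rw [modif_in hSep V x hp hin, Cst.ext_in hin]
      · rw [Cst.ext_out hin]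
        have hge : (q : ℤ) ≤ j - p := by
          rw [Finset.mem_Ico] at hin
          omega
        show modif (q * 1) S V x j = x (p + (j - p))
        rw [show p + (j - p) = j by ring]
        by_cases hany : ∃ p', S p' ∧ j - p' ∈ Finset.Ico (-((q * 1 : ℕ) : ℤ)) ((q * 1 : ℕ) : ℤ)
        · obtain ⟨p', hp', hin'⟩ := hany
          rw [modif_in hSep V x hp' hin']
          apply rel_left (hR p' hp')
          have hin2 := Finset.mem_Ico.1 hin'
          have hne : p' ≠ p := by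
            rintro rfl
            exact hin hin'
          have hs := hSep p' p hp' hp hne
          obtain ⟨k', hk'⟩ := hcut p' hp'
          have hpp : p < p' := by
            rcases le_abs.1 hs with h7 | h7
            · push_cast at h7; omega
            · push_cast at h7
              push_cast at hin2
              omega
          have h8 : d i < d k' := by
            rcases le_abs.1 hs with h7 | h7 <;> push_cast at h7 <;> omega
          have h9 : i + 1 ≤ k' := by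
            have := hmono.lt_iff_lt.1 h8
            omega
          have h10 : d (i + 1) ≤ d k' := hmono.monotone h9
          omega
        · push Not at hany
          exact modif_out V x hany
    rw [e]
    exact h6
  · push Not at hex
    have e : wd (modif (q * 1) S V x) (d i) (ℓ (y i)) = wd x (d i) (ℓ (y i)) := by
      apply Cst.wd_congr'
      intro t ht1 ht2
      obtain ⟨j, hj⟩ : ∃ j : ℤ, j = d i + t := ⟨_, rfl⟩
      rw [← hj]
      by_cases hany : ∃ p', S p' ∧ j - p' ∈ Finset.Ico (-((q * 1 : ℕ) : ℤ)) ((q * 1 : ℕ) : ℤ)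
      · obtain ⟨p', hp', hin'⟩ := hany
        rw [modif_in hSep V x hp' hin']
        apply rel_left (hR p' hp')
        have hin2 := Finset.mem_Ico.1 hin'
        by_contra hcon
        push Not at hcon
        have h7 := hex p' hp' (by omega)
        push_cast at hin2
        omega
      · push Not at hany
        exact modif_out V x hany
    rw [e]
    exact h.tile hℓ i

theorem closed_gate [Finite A] {ϑ : A → Finset (List A)} (hϑ : IsRandomSub ϑ) {ℓ : A → ℕ}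
    (hℓ : HasLen ϑ ℓ) {x0 : ℤ → A} {n : ℕ} (hS : SR ϑ x0 n) {rad : ℕ → ℕ}
    (hrad : Rad ϑ x0 n rad) (q : ℕ) (hq : n ≤ q) (N : ℕ) (e : Ty A N)
    (hsep : ∀ x ∈ subshift ϑ, ∀ p p', Cst.Mk x0 n x p → ty ϑ rad N x p = e →
      Cst.Mk x0 n x p' → ty ϑ rad N x p' = e → p ≠ p' → 2 * ((q * 1 : ℕ) : ℤ) ≤ |p - p'|)
    (x : ℤ → A) (hx : x ∈ subshift ϑ) (V : ℤ → Cont A (q * 1))
    (hR : ∀ p, Cst.Mk x0 n x p → ty ϑ rad N x p = e → Rel ϑ n q (cont (q * 1) x p) (V p)) :
    (modif (q * 1) (fun p => Cst.Mk x0 n x p ∧ ty ϑ rad N x p = e) V x ∈ subshift ϑ) ∧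
    (∀ p, (Cst.Mk x0 n (modif (q * 1) (fun p => Cst.Mk x0 n x p ∧ ty ϑ rad N x p = e) V x) p ∧
        ty ϑ rad N (modif (q * 1) (fun p => Cst.Mk x0 n x p ∧ ty ϑ rad N x p = e) V x) p = e) ↔
      (Cst.Mk x0 n x p ∧ ty ϑ rad N x p = e)) ∧
    (∀ N', N ≤ N' → ∀ p, Cst.Mk x0 n x p → ty ϑ rad N x p = e →
      ty ϑ rad N' (modif (q * 1) (fun p => Cst.Mk x0 n x p ∧ ty ϑ rad N x p = e) V x) p
        = ty ϑ rad N' x p) := by
  set S : ℤ → Prop := fun p => Cst.Mk x0 n x p ∧ ty ϑ rad N x p = e with hSdef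
  set w := modif (q * 1) S V x with hw
  have hSep : Sep (q * 1) S := by
    intro p p' hp hp' hne
    exact hsep x hx p p' hp.1 hp.2 hp'.1 hp'.2 hne
  have hpar : ∀ y d, Parse ϑ x y d → Parse ϑ w y d := fun y d h =>
    modif_parse hϑ hℓ hS hSep (fun p hp => hp.1) (fun p hp => hR p hp.1 hp.2) h
  obtain ⟨y, d, h, -, -⟩ := exists_parse hϑ hℓ hx
  have h' := hpar y d h
  have hwX : w ∈ subshift ϑ := h'.mem hϑ
  -- to the left of the modified parts nothing changes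
  have hF1 : ∀ p, S p → ∀ j : ℤ, -(q : ℤ) ≤ j - p → j - p < n → w j = x j := by
    intro p hp j h1 h2
    have hin : j - p ∈ Finset.Ico (-((q * 1 : ℕ) : ℤ)) ((q * 1 : ℕ) : ℤ) := by
      rw [Finset.mem_Ico]
      push_cast
      omega
    rw [hw, modif_in hSep V x hp hin]
    exact rel_left (hR p hp.1 hp.2) h2 hin
  have hty : ∀ N' p, Cst.Mk x0 n x p → Cst.Mk x0 n w p → ty ϑ rad N' w p = ty ϑ rad N' x p := by
    intro N' p hm hm'
    obtain ⟨k, hk⟩ := cut_of_mark hϑ hS h hm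
    exact ty_eq hrad h h' hk hm hm' N'
  have hfm : ∀ p, S p → Cst.Mk x0 n w p := by
    intro p hp i hi1 hi2
    rw [hF1 p hp (p + i) (by omega) (by omega)]
    exact hp.1 i hi1 hi2
  have hfwd : ∀ p, S p → Cst.Mk x0 n w p ∧ ty ϑ rad N w p = e := by
    intro p hp
    refine ⟨hfm p hp, ?_⟩
    rw [hty N p hp.1 (hfm p hp)]
    exact hp.2
  refine ⟨hwX, ?_, ?_⟩
  · intro p'
    constructor
    · rintro ⟨hm, ht⟩
      by_contra hnot
      have hfar : ∀ p1, S p1 → 2 * ((q * 1 : ℕ) : ℤ) ≤ |p' - p1| := by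
        intro p1 hp1
        refine hsep w hwX p' p1 hm ht (hfwd p1 hp1).1 (hfwd p1 hp1).2 ?_
        rintro rfl
        exact hnot hp1
      have hmx : Cst.Mk x0 n x p' := by
        intro j hj1 hj2
        rw [← hm j hj1 hj2]
        symm
        apply modif_out
        intro p1 hp1 hin
        have h1 := hfar p1 hp1
        rw [Finset.mem_Ico] at hin
        push_cast at h1 hin
        rcases le_abs.1 h1 with h | h <;> omega
      exact hnot ⟨hmx, by rw [← hty N p' hmx hm]; exact ht⟩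
    · exact hfwd p'
  · intro N' _ p hp hpe
    exact hty N' p hp (hfm p ⟨hp, hpe⟩)

theorem center_gate (ϑ : A → Finset (List A)) (n q q' : ℕ) (hqq : q ≤ q')
    (x x' : ℤ → A) (p : ℤ)
    (hout : ∀ j, j - p ∉ Finset.Ico (-((q * 1 : ℕ) : ℤ)) ((q * 1 : ℕ) : ℤ) → x' j = x j)
    (hR : Rel ϑ n q (cont (q * 1) x p) (cont (q * 1) x' p)) :
    Rel ϑ n q' (cont (q' * 1) x p) (cont (q' * 1) x' p) := by
  intro z
  have hle : ((q * 1 : ℕ) : ℤ) ≤ ((q' * 1 : ℕ) : ℤ) := by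
    exact_mod_cast Nat.mul_le_mul_right 1 hqq
  obtain ⟨z', hz'⟩ : ∃ z' : ℤ → A, z' = Cst.ext (q' * 1) z (cont (q' * 1) x p) := ⟨_, rfl⟩
  have e1 : Cst.ext (q' * 1) z (cont (q' * 1) x p) = Cst.ext (q * 1) z' (cont (q * 1) x p) := by
    funext j
    by_cases h : j ∈ Finset.Ico (-((q * 1 : ℕ) : ℤ)) ((q * 1 : ℕ) : ℤ)
    · have h' : j ∈ Finset.Ico (-((q' * 1 : ℕ) : ℤ)) ((q' * 1 : ℕ) : ℤ) := by
        rw [Finset.mem_Ico] at h ⊢
        omega
      rw [Cst.ext_in h, Cst.ext_in h']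
      rfl
    · rw [Cst.ext_out h, hz']
  have e2 : Cst.ext (q' * 1) z (cont (q' * 1) x' p) = Cst.ext (q * 1) z' (cont (q * 1) x' p) := by
    funext j
    by_cases h : j ∈ Finset.Ico (-((q * 1 : ℕ) : ℤ)) ((q * 1 : ℕ) : ℤ)
    · have h' : j ∈ Finset.Ico (-((q' * 1 : ℕ) : ℤ)) ((q' * 1 : ℕ) : ℤ) := by
        rw [Finset.mem_Ico] at h ⊢
        omega
      rw [Cst.ext_in h, Cst.ext_in h']
      rfl
    · rw [Cst.ext_out h]
      by_cases h' : j ∈ Finset.Ico (-((q' * 1 : ℕ) : ℤ)) ((q' * 1 : ℕ) : ℤ)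
      · rw [Cst.ext_in h', hz', Cst.ext_in h']
        show x' (p + j) = x (p + j)
        apply hout
        rwa [add_sub_cancel_left]
      · rw [Cst.ext_out h', hz', Cst.ext_out h']
  rw [e1, e2]
  exact hR z'

/-! ### Freedom -/

/-- exchange of one tile, uniformly in the rest of the sequence -/
theorem exch {ϑ : A → Finset (List A)} (hϑ : IsRandomSub ϑ) {ℓ : A → ℕ}
    (hℓ : HasLen ϑ ℓ) {x0 : ℤ → A} {n : ℕ} (hS : SR ϑ x0 n) {rad : ℕ → ℕ}
    (hrad : Rad ϑ x0 n rad) {I : ℕ} {X1 X2 E1 E2 y0 : ℤ → A} {c0 : ℤ → ℤ} {i : ℤ}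
    (hi0 : 0 ≤ i) (hiI : i + 1 ≤ I) (h1 : Parse ϑ X1 y0 c0) (h2 : Parse ϑ X2 y0 c0)
    (hc0 : c0 0 = 0) (hm : Near n x0 X1)
    (hE1 : ∀ j : ℤ, -(rad I : ℤ) ≤ j → j < rad I → X1 j = E1 j)
    (hE2 : ∀ j : ℤ, c0 i ≤ j → j < c0 (i + 1) → X2 j = E2 j)
    (hnr : n ≤ rad I)
    (hout : ∀ j : ℤ, (j < c0 i ∨ c0 (i + 1) ≤ j) → E2 j = E1 j)
    {y : ℤ → A} {d : ℤ → ℤ} (h : Parse ϑ E1 y d) : Parse ϑ E2 y d := by
  have hmE : Near n x0 E1 := by
    intro j hj1 hj2
    rw [← hE1 j (by omega) (by omega)]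
    exact hm j hj1 hj2
  obtain ⟨k, hk⟩ := (hS E1 (h.mem hϑ) hmE).1 y d h
  have h' := h.reindex k
  have hloc := hrad I X1 y0 c0 E1 (sh k y) (fun i => d (i + k)) h1 h' hc0
    (by simp only [zero_add]; exact hk) hm hE1
  obtain ⟨e1, e2⟩ := hloc i hi0 (by omega)
  obtain ⟨e3, -⟩ := hloc (i + 1) (by omega) hiI
  have hstep := h2.step hℓ i
  have h3 : Parse ϑ E2 (sh k y) (fun i => d (i + k)) := by
    refine h'.change hℓ i ?_ ?_
    · rw [← e1, ← e2]
      have e : wd E2 (c0 i) (ℓ (y0 i)) = wd X2 (c0 i) (ℓ (y0 i)) := by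
        apply Cst.wd_congr'
        intro t ht1 ht2
        exact (hE2 _ (by omega) (by omega)).symm
      rw [e]
      exact h2.tile hℓ i
    · intro j hj
      apply hout
      rw [e1, e3]
      exact hj
  have h4 := h3.reindex (-k)
  have e4 : sh (-k) (sh k y) = y := by
    rw [sh_sh, neg_add_cancel, sh_zero]
  have e5 : (fun i => (fun i => d (i + k)) (i + -k)) = d := by
    funext j
    show d (j + -k + k) = d j
    rw [neg_add_cancel_right]
  rw [e4, e5] at h4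
  exact h4

theorem free_gate [Finite A] {ϑ : A → Finset (List A)} (hϑ : IsRandomSub ϑ) {ℓ : A → ℕ}
    (hℓ : HasLen ϑ ℓ) (hc : Compatible ϑ) (hp : Primitive ϑ) {b : A}
    (hb : ∃ v ∈ ϑ b, ∃ v' ∈ ϑ b, v ≠ v') {x0 : ℤ → A} {n : ℕ} (hS : SR ϑ x0 n) {rad : ℕ → ℕ}
    (hrad : Rad ϑ x0 n rad) (hnr : ∀ m, n ≤ rad m) (M q1 : ℕ) :
    ∃ q, q1 ≤ q ∧ n ≤ q ∧ ∀ x ∈ subshift ϑ, ∀ p, Cst.Mk x0 n x p →
      ∃ s : Finset (Cont A (q * 1)), M ≤ s.card ∧
        ∀ V ∈ s, Rel ϑ n q (cont (q * 1) x p) V := by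
  classical
  obtain ⟨G, hG⟩ := syndetic' hϑ hc hp b
  obtain ⟨L, hL⟩ : ∃ L : ℕ, ∀ a, ℓ a ≤ L := by
    obtain ⟨L, hL⟩ := (Set.finite_range ℓ).bddAbove
    exact ⟨L, fun a => hL ⟨a, rfl⟩⟩
  obtain ⟨I, hI⟩ : ∃ I : ℕ, I = n + M * G + 1 := ⟨_, rfl⟩
  obtain ⟨q, hq⟩ : ∃ q : ℕ, q = q1 + n + rad I + I * L := ⟨_, rfl⟩
  refine ⟨q, by omega, by omega, ?_⟩
  intro x hx p hm
  obtain ⟨y, c, h, hc0⟩ := parse_at_mark hϑ hℓ hS hx hm
  have hi : ∀ m : ℕ, ∃ i : ℤ, (n : ℤ) + m * G ≤ i ∧ i < n + m * G + G ∧ y i = b := fun m =>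
    hG y h.1 _
  choose i hi1 hi2 hi3 using hi
  have hother : ∀ w ∈ ϑ b, ∃ w' ∈ ϑ b, w' ≠ w := by
    intro w hw
    obtain ⟨v, hv, v', hv', hne⟩ := hb
    by_cases h1 : v = w
    · exact ⟨v', hv', fun h2 => hne (h1.trans h2.symm)⟩
    · exact ⟨v, hv, h1⟩
  have hv : ∀ m : ℕ, ∃ x' : ℤ → A, wd x' (c (i m)) (ℓ b) ∈ ϑ b ∧
      wd x' (c (i m)) (ℓ b) ≠ wd x (c (i m)) (ℓ b) ∧
      ∀ j, (j < c (i m) ∨ c (i m) + ℓ b ≤ j) → x' j = x j := by
    intro m
    have h3 := h.tile hℓ (i m)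
    rw [hi3 m] at h3
    obtain ⟨w', hw', hne⟩ := hother _ h3
    obtain ⟨x', hx1, hx2⟩ := Cst.exists_change x (c (i m)) (hℓ b w' hw')
    exact ⟨x', by rw [hx1]; exact hw', by rw [hx1]; exact hne, hx2⟩
  choose X' hX1 hX2 hX3 using hv
  have hstep : ∀ m, c (i m + 1) = c (i m) + ℓ b := by
    intro m
    rw [h.step hℓ (i m), hi3 m]
  have hi0 : ∀ m, (n : ℤ) ≤ i m := by
    intro m
    have h3 := hi1 m
    have h6 : (0 : ℤ) ≤ (m : ℤ) * G := by positivity
    linarith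
  have hlow : ∀ m, p + n ≤ c (i m) := by
    intro m
    have h3 := h.add_le 0 (i m).toNat
    have h4 := hi0 m
    have h5 : (0 : ℤ) ≤ n := by positivity
    have h6 : (((i m).toNat : ℕ) : ℤ) = i m := Int.toNat_of_nonneg (by omega)
    rw [h6, zero_add, hc0] at h3
    omega
  have hiI : ∀ m < M, i m + 1 ≤ (I : ℤ) := by
    intro m hmM
    have h4 := hi2 m
    have h5 : (m : ℤ) * G + G ≤ M * G := by
      have : m * G + G ≤ M * G := by
        calc m * G + G = (m + 1) * G := by ring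
          _ ≤ M * G := Nat.mul_le_mul_right G hmM
      exact_mod_cast this
    rw [hI]
    push_cast
    linarith
  have hhigh : ∀ m < M, c (i m + 1) ≤ p + q := by
    intro m hmM
    have h3 := h.le_add hℓ hL 0 (i m + 1).toNat
    have h4 := hi0 m
    have h5 : (0 : ℤ) ≤ n := by positivity
    have h6 : (((i m + 1).toNat : ℕ) : ℤ) = i m + 1 := Int.toNat_of_nonneg (by omega)
    rw [h6, zero_add, hc0] at h3
    have h7 := hiI m hmM
    have h8 : (i m + 1) * (L : ℤ) ≤ I * L := mul_le_mul_of_nonneg_right h7 (by positivity)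
    rw [hq]
    push_cast
    have h9 : (0 : ℤ) ≤ q1 := by positivity
    have h10 : (0 : ℤ) ≤ rad I := by positivity
    linarith
  have hinj : Set.InjOn (fun m => cont (q * 1) (X' m) p) (Finset.range M : Set ℕ) := by
    intro m hm1 m' hm2 heq
    by_contra hne
    have hmM : m < M := by simpa using hm1
    have hii : i m ≠ i m' := by
      rcases lt_or_gt_of_ne hne with h | h
      · have h3 := hi2 m
        have h4 := hi1 m'
        have h5 : (m : ℤ) * G + G ≤ m' * G := by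
          have : m * G + G ≤ m' * G := by
            calc m * G + G = (m + 1) * G := by ring
              _ ≤ m' * G := Nat.mul_le_mul_right G h
          exact_mod_cast this
        omega
      · have h3 := hi2 m'
        have h4 := hi1 m
        have h5 : (m' : ℤ) * G + G ≤ m * G := by
          have : m' * G + G ≤ m * G := by
            calc m' * G + G = (m' + 1) * G := by ring
              _ ≤ m * G := Nat.mul_le_mul_right G h
          exact_mod_cast this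
        omega
    apply hX2 m
    apply Cst.wd_congr'
    intro k hk1 hk2
    have h3 := hlow m
    have h4 := hhigh m hmM
    rw [hstep m] at h4
    have hin : c (i m) + k - p ∈ Finset.Ico (-((q * 1 : ℕ) : ℤ)) ((q * 1 : ℕ) : ℤ) := by
      rw [Finset.mem_Ico]
      push_cast
      omega
    have h5 := congrFun heq ⟨c (i m) + k - p, hin⟩
    have h6 : X' m (p + (c (i m) + k - p)) = X' m' (p + (c (i m) + k - p)) := h5
    rw [show p + (c (i m) + k - p) = c (i m) + k by ring] at h6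
    rw [h6]
    apply hX3
    have hmono := h.strictMono.monotone
    rcases lt_or_gt_of_ne hii with h7 | h7
    · left
      have h8 : c (i m + 1) ≤ c (i m') := hmono (by omega)
      rw [hstep m] at h8
      omega
    · right
      have h8 : c (i m' + 1) ≤ c (i m) := hmono (by omega)
      rw [hstep m'] at h8
      omega
  refine ⟨(Finset.range M).image (fun m => cont (q * 1) (X' m) p), ?_, ?_⟩
  · rw [Finset.card_image_of_injOn hinj, Finset.card_range]
  · intro V hV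
    obtain ⟨m, hmm, rfl⟩ := Finset.mem_image.1 hV
    have hmM : m < M := Finset.mem_range.1 hmm
    have hlow' := hlow m
    have hhigh' := hhigh m hmM
    have hrq : rad I ≤ q := by omega
    intro z
    -- the two extensions agree outside the tile
    have hout : ∀ j : ℤ, (j < c (i m) - p ∨ c (i m + 1) - p ≤ j) →
        Cst.ext (q * 1) z (cont (q * 1) (X' m) p) j = Cst.ext (q * 1) z (cont (q * 1) x p) j := by
      intro j hj
      by_cases hin : j ∈ Finset.Ico (-((q * 1 : ℕ) : ℤ)) ((q * 1 : ℕ) : ℤ)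
      · rw [Cst.ext_in hin, Cst.ext_in hin]
        show X' m (p + j) = x (p + j)
        apply hX3
        rw [hstep m] at hj
        rcases hj with h | h
        · left; omega
        · right; omega
      · rw [Cst.ext_out hin, Cst.ext_out hin]
    -- inside the window the extensions show `x`, `X' m`
    have hwin : ∀ (u : ℤ → A) (j : ℤ), -(q : ℤ) ≤ j → j < q →
        sh p u j = Cst.ext (q * 1) z (cont (q * 1) u p) j := by
      intro u j hj1 hj2
      have hin : j ∈ Finset.Ico (-((q * 1 : ℕ) : ℤ)) ((q * 1 : ℕ) : ℤ) := by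
        rw [Finset.mem_Ico]
        push_cast
        omega
      rw [Cst.ext_in hin, sh_apply, add_comm]
      rfl
    have hP1 : Parse ϑ (sh p x) y (fun i => c i - p) := h.shift p
    have hPX : Parse ϑ (X' m) y c := by
      refine h.change hℓ (i m) ?_ ?_
      · rw [hi3 m]
        exact hX1 m
      · intro j hj
        rw [hstep m] at hj
        exact hX3 m j hj
    have hP2 : Parse ϑ (sh p (X' m)) y (fun i => c i - p) := hPX.shift p
    have hN1 : Near n x0 (sh p x) := near_sh hm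
    have hN2 : Near n x0 (sh p (X' m)) := by
      intro j hj1 hj2
      rw [← hN1 j hj1 hj2, sh_apply, sh_apply]
      apply hX3
      left
      omega
    refine ⟨?_, fun y' d => ⟨fun h' => ?_, fun h' => ?_⟩⟩
    · intro j hj
      exact (hout j (Or.inl (by omega))).symm
    · refine exch hϑ hℓ hS hrad (I := I) (i := i m) (by have := hi0 m; omega) (hiI m hmM) hP1 hP2
        (by show c 0 - p = 0; omega) hN1 ?_ ?_ (hnr I) hout h'
      · intro j hj1 hj2
        exact hwin x j (by omega) (by omega)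
      · intro j hj1 hj2
        exact hwin (X' m) j (by omega) (by omega)
    · refine exch hϑ hℓ hS hrad (I := I) (i := i m) (by have := hi0 m; omega) (hiI m hmM) hP2 hP1
        (by show c 0 - p = 0; omega) hN2 ?_ ?_ (hnr I) (fun j hj => (hout j hj).symm) h'
      · intro j hj1 hj2
        exact hwin (X' m) j (by omega) (by omega)
      · intro j hj1 hj2
        exact hwin x j (by omega) (by omega)

end G7

open G7 in
theorem not_rf_of_sync {A : Type} [Finite A] [TopologicalSpace A] [DiscreteTopology A]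
    {ϑ : A → Finset (List A)} (hϑ : IsRandomSub ϑ) (hc : Compatible ϑ) (hp : Primitive ϑ)
    (hap : Aperiodic (subshift ϑ)) (hS : SyncRight ϑ)
    (hnd : ∃ b, ∃ v ∈ ϑ b, ∃ v' ∈ ϑ b, v ≠ v') :
    ¬ Group.ResiduallyFinite (autRS ϑ) := by
  obtain ⟨b, hb⟩ := hnd
  obtain ⟨ℓ, hℓ⟩ := hasLen_of_compatible hϑ hc
  obtain ⟨x0, hx0, n, hS⟩ := hS
  have hS' : SR ϑ x0 n := hS
  obtain ⟨rad, hrad, hnr⟩ : ∃ rad : ℕ → ℕ, Rad ϑ x0 n rad ∧ ∀ m, n ≤ rad m := by
    choose r hr using loc hϑ hℓ hS'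
    refine ⟨fun m => max n (r m), ?_, fun m => le_max_left _ _⟩
    intro m x y c x' y' c' h1 h2 h3 h4 h5 h6
    refine hr m x y c x' y' c' h1 h2 h3 h4 h5 fun i hi1 hi2 => h6 i ?_ ?_
    · have h7 : r m ≤ max n (r m) := le_max_right _ _
      show -((max n (r m) : ℕ) : ℤ) ≤ i
      omega
    · have h7 : r m ≤ max n (r m) := le_max_right _ _
      show i < ((max n (r m) : ℕ) : ℤ)
      omega
  refine not_residuallyFinite_of_gates (subshift ϑ) (shiftInv_subshift ϑ) 1 n (Cst.Mk x0 n)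
    (Ty A) (fun N => inferInstance) (ty ϑ rad) (Rel ϑ n) ?_ ?_ ?_ ?_ ?_
    (rel_equiv ϑ n) (sep_gate hϑ hℓ hap hS' hrad) ?_ ?_
    (free_gate hϑ hℓ hc hp hb hS' hrad hnr) ?_
  · -- mark_sh
    intro x p
    unfold Cst.Mk
    have : ∀ i : ℤ, sh 1 x (p + i) = x (p + 1 + i) := by
      intro i
      rw [sh_apply]
      congr 1
      ring
    simp only [this]
  · -- mark_loc
    refine ⟨n, fun x x' p h hm i hi1 hi2 => ?_⟩
    rw [← h i (by rw [abs_le]; constructor <;> linarith)]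
    exact hm i hi1 hi2
  · -- ty_sh
    intro N x p
    funext M
    apply T_congr
    intro i _ _
    rw [sh_apply]
    congr 1
    ring
  · -- ty_loc
    intro N
    refine ⟨(Finset.range (N + 1)).sup rad, fun x x' p h => ?_⟩
    funext M
    apply T_congr
    intro i hi1 hi2
    apply h
    have : rad M.1 ≤ (Finset.range (N + 1)).sup rad :=
      Finset.le_sup (f := rad) (Finset.mem_range.2 M.2)
    rw [abs_le]
    constructor <;> omega
  · -- ty_mono
    intro N N' hNN x x' p p' h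
    funext M
    exact congrFun h ⟨M.1, by have := M.2; omega⟩
  · -- closed
    intro q hq N e hsep x hx V hR
    exact closed_gate hϑ hℓ hS' hrad q hq N e hsep x hx V hR
  · -- center
    intro q q' hqq x x' p hout hR
    exact center_gate ϑ n q q' hqq x x' p hout hR
  · -- ne
    exact ⟨x0, hx0, fun i _ _ => by rw [zero_add]⟩

end H35.RS.OS
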