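import Pool.Agent.H5.RS.OS0

/-!
# OS8: reversal
-/

set_option autoImplicit false

namespace H35.RS.OS

open H35.RS H35.RS.Up

variable {A : Type*}

/-- the reversed random substitution -/
def rev [DecidableEq A] (ϑ : A → Finset (List A)) : A → Finset (List A) :=
  fun a => (ϑ a).image List.reverse

/-- the reflected sequence -/
def rfl' (x : ℤ → A) : ℤ → A := fun j => x (-1 - j)

theorem mem_rev [DecidableEq A] {ϑ : A → Finset (List A)} {a : A} {v : List A} :
    v ∈ rev ϑ a ↔ v.reverse ∈ ϑ a := by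
  unfold rev
  rw [Finset.mem_image]
  constructor
  · rintro ⟨w, hw, rfl⟩
    rwa [List.reverse_reverse]
  · intro h
    exact ⟨_, h, List.reverse_reverse v⟩

theorem rfl'_rfl' (x : ℤ → A) : rfl' (rfl' x) = x := by
  funext j
  show x (-1 - (-1 - j)) = x j
  congr 1
  ring

theorem rfl'_sh (k : ℤ) (x : ℤ → A) : rfl' (sh k x) = sh (-k) (rfl' x) := by
  funext j
  show x (-1 - j + k) = x (-1 - (j + -k))
  congr 1
  ring

theorem wd_rfl' (x : ℤ → A) (i : ℤ) (n : ℕ) : wd (rfl' x) i n = (wd x (-i - n) n).reverse := by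
  apply List.ext_getElem
  · rw [List.length_reverse, wd_length, wd_length]
  · intro k h1 h2
    rw [wd_length] at h1
    rw [List.getElem_reverse]
    simp only [wd, List.getElem_map, List.getElem_range, List.length_map, List.length_range, rfl']
    congr 1
    omega

theorem rev_isRandomSub [DecidableEq A] {ϑ : A → Finset (List A)} (hϑ : IsRandomSub ϑ) :
    IsRandomSub (rev ϑ) := by
  intro a
  refine ⟨(hϑ a).1.image _, fun v hv => ?_⟩
  have h := (hϑ a).2 _ (mem_rev.1 hv)
  intro h0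
  exact h (by rw [h0, List.reverse_nil])

theorem rev_compatible [DecidableEq A] {ϑ : A → Finset (List A)} (hc : Compatible ϑ) :
    Compatible (rev ϑ) := by
  intro a v hv v' hv'
  have h := hc a _ (mem_rev.1 hv) _ (mem_rev.1 hv')
  exact (List.reverse_perm v).symm.trans (h.trans (List.reverse_perm v'))

theorem imgW_rev [DecidableEq A] {ϑ : A → Finset (List A)} (u : List A) : ∀ v ∈ imgW ϑ u,
    v.reverse ∈ imgW (rev ϑ) u.reverse := by
  induction u with
  | nil =>
    intro v hv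
    have h1 : v = [] := hv
    rw [h1]
    exact rfl
  | cons a u ih =>
    rintro v ⟨s, hs, t, ht, rfl⟩
    rw [List.reverse_cons, List.reverse_append]
    refine (imgW_append _ _ _).2 ⟨_, ih t ht, _, mem_imgW_singleton ?_, rfl⟩
    rw [mem_rev, List.reverse_reverse]
    exact hs

theorem pow_rev [DecidableEq A] {ϑ : A → Finset (List A)} (p : ℕ) (a : A) : ∀ v ∈ pow ϑ p a,
    v.reverse ∈ pow (rev ϑ) p a := by
  induction p with
  | zero =>
    intro v hv
    have h1 : v = [a] := hv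
    rw [h1]
    exact rfl
  | succ p ih =>
    rintro v ⟨u, hu, hv⟩
    exact ⟨_, ih u hu, imgW_rev u v hv⟩

theorem rev_primitive [DecidableEq A] {ϑ : A → Finset (List A)} (hp : Primitive ϑ) :
    Primitive (rev ϑ) := by
  obtain ⟨p, hp1, hp⟩ := hp
  refine ⟨p, hp1, fun a b => ?_⟩
  obtain ⟨v, hv, hav⟩ := hp a b
  exact ⟨_, pow_rev p b v hv, List.mem_reverse.2 hav⟩

theorem rev_rev [DecidableEq A] (ϑ : A → Finset (List A)) : rev (rev ϑ) = ϑ := by
  funext a
  ext v
  rw [mem_rev, mem_rev, List.reverse_reverse]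

theorem legal_rev [DecidableEq A] {ϑ : A → Finset (List A)} {w : List A} (h : Legal ϑ w) :
    Legal (rev ϑ) w.reverse := by
  obtain ⟨p, a, v, hv, hw⟩ := h
  exact ⟨p, a, _, pow_rev p a v hv, List.reverse_infix.2 hw⟩

theorem rfl'_mem [DecidableEq A] {ϑ : A → Finset (List A)} {x : ℤ → A} (hx : x ∈ subshift ϑ) :
    rfl' x ∈ subshift (rev ϑ) := by
  intro i n
  rw [wd_rfl']
  exact legal_rev (hx _ _)

theorem mem_subshift_rev [DecidableEq A] {ϑ : A → Finset (List A)} {x : ℤ → A} :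
    rfl' x ∈ subshift (rev ϑ) ↔ x ∈ subshift ϑ := by
  constructor
  · intro h
    have h1 := rfl'_mem h
    rwa [rfl'_rfl', rev_rev] at h1
  · exact rfl'_mem

theorem rev_aperiodic [DecidableEq A] {ϑ : A → Finset (List A)} (h : Aperiodic (subshift ϑ)) :
    Aperiodic (subshift (rev ϑ)) := by
  intro x hx n hn he
  have h1 : rfl' x ∈ subshift ϑ := by
    rw [← mem_subshift_rev, rfl'_rfl']
    exact hx
  refine h _ h1 n hn ?_
  have h2 : sh (-(n : ℤ)) (rfl' x) = rfl' x := by
    rw [← rfl'_sh, he]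
  calc sh (n : ℤ) (rfl' x) = sh (n : ℤ) (sh (-(n : ℤ)) (rfl' x)) := by rw [h2]
    _ = rfl' x := by rw [sh_sh, add_neg_cancel, sh_zero]

theorem parse_rev [DecidableEq A] {ϑ : A → Finset (List A)} {x y : ℤ → A} {c : ℤ → ℤ}
    (h : Parse ϑ x y c) : Parse (rev ϑ) (rfl' x) (rfl' y) (fun i => -c (-i)) := by
  refine ⟨rfl'_mem h.1, fun i => ?_⟩
  obtain ⟨h1, h2⟩ := h.2 (-1 - i)
  have e1 : -1 - i + 1 = -i := by ring
  have e2 : -(i + 1) = -1 - i := by ring
  rw [e1] at h1 h2
  refine ⟨by simp only [e2]; omega, ?_⟩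
  simp only [e2]
  rw [mem_rev, wd_rfl', List.reverse_reverse]
  have e3 : -c (-1 - i) - -c (-i) = c (-i) - c (-1 - i) := by ring
  rw [e3]
  have e4 : - -c (-i) - (((c (-i) - c (-1 - i)).toNat : ℕ) : ℤ) = c (-1 - i) := by omega
  rw [e4]
  exact h2

theorem parse_of_rev [DecidableEq A] {ϑ : A → Finset (List A)} {x y : ℤ → A} {c : ℤ → ℤ}
    (h : Parse (rev ϑ) x y c) : Parse ϑ (rfl' x) (rfl' y) (fun i => -c (-i)) := by
  have h1 := parse_rev h
  rwa [rev_rev] at h1

theorem near_rev {n : ℕ} {x0 x : ℤ → A} (h : Near n (rfl' x0) x) : Near n x0 (rfl' x) := by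
  intro i hi1 hi2
  have h1 := h (-1 - i) (by omega) (by omega)
  show x (-1 - i) = x0 i
  rw [h1]
  show x0 (-1 - (-1 - i)) = x0 i
  congr 1
  ring

theorem rev_syncRight [DecidableEq A] {ϑ : A → Finset (List A)} (h : SyncLeft ϑ) :
    SyncRight (rev ϑ) := by
  obtain ⟨x0, hx0, n, h⟩ := h
  refine ⟨rfl' x0, rfl'_mem hx0, n, fun x hx hN => ?_⟩
  have hx' : rfl' x ∈ subshift ϑ := by
    rw [← mem_subshift_rev, rfl'_rfl']
    exact hx
  obtain ⟨h1, h2⟩ := h (rfl' x) hx' (near_rev hN)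
  refine ⟨?_, ?_⟩
  · intro y c hP
    obtain ⟨i, hi⟩ := h1 _ _ (parse_of_rev hP)
    exact ⟨-i, by omega⟩
  · intro y c y' c' hP hP' hc hc' i hi
    have h3 := h2 _ _ _ _ (parse_of_rev hP) (parse_of_rev hP') (by simp only [neg_zero]; omega)
      (by simp only [neg_zero]; omega)
    constructor
    · rcases eq_or_lt_of_le hi with h0 | h0
      · rw [← h0, hc, hc']
      · have h4 := (h3 (-i) (by omega)).1
        simp only [neg_neg] at h4
        omega
    · have h4 := (h3 (-1 - i) (by omega)).2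
      have e : -1 - (-1 - i) = i := by ring
      have h5 : y (-1 - (-1 - i)) = y' (-1 - (-1 - i)) := h4
      rwa [e] at h5

theorem rev_agreeRight [DecidableEq A] {ϑ : A → Finset (List A)} (h : AgreeLeft ϑ) :
    AgreeRight (rev ϑ) := by
  intro x y c y' c' hP hP' hc i hi
  have h3 := h _ _ _ _ _ (parse_of_rev hP) (parse_of_rev hP') (by simp only [neg_zero]; omega)
  constructor
  · rcases eq_or_lt_of_le hi with h0 | h0
    · rw [← h0, hc]
    · have h4 := (h3 (-i) (by omega)).1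
      simp only [neg_neg] at h4
      omega
  · have h4 := (h3 (-1 - i) (by omega)).2
    have e : -1 - (-1 - i) = i := by ring
    have h5 : y (-1 - (-1 - i)) = y' (-1 - (-1 - i)) := h4
    rwa [e] at h5

theorem unique_of_rev [DecidableEq A] {ϑ : A → Finset (List A)} (h : UniqueParse (rev ϑ)) :
    UniqueParse ϑ := by
  intro x y c y' c' hP hP'
  obtain ⟨k, hk⟩ := h _ _ _ _ _ (parse_rev hP) (parse_rev hP')
  refine ⟨-k, fun i => ⟨?_, ?_⟩⟩
  · have h1 := (hk (-i)).1
    simp only [neg_neg] at h1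
    have e : -(-i + k) = i + -k := by ring
    rw [e] at h1
    omega
  · have h1 := (hk (-1 - i)).2
    have h2 : y' (-1 - (-1 - i)) = y (-1 - (-1 - i + k)) := h1
    have e1 : -1 - (-1 - i) = i := by ring
    have e2 : -1 - (-1 - i + k) = i + -k := by ring
    rwa [e1, e2] at h2

end H35.RS.OS
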