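import Pool.Agent.H5.RS.OS8

/-!
# OS8b: residual finiteness and reversal
-/

set_option autoImplicit false

namespace H35.RS.OS

open H35.RS H35.RS.Up

/-- the reflection as a homeomorphism -/
def rflHomeo {A : Type} [DecidableEq A] [TopologicalSpace A]
    (ϑ : A → Finset (List A)) : subshift ϑ ≃ₜ subshift (rev ϑ) where
  toFun x := ⟨rfl' x.1, rfl'_mem x.2⟩
  invFun x := ⟨rfl' x.1, by rw [← mem_subshift_rev, rfl'_rfl']; exact x.2⟩
  left_inv x := Subtype.ext (rfl'_rfl' x.1)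
  right_inv x := Subtype.ext (rfl'_rfl' x.1)
  continuous_toFun := by
    refine Continuous.subtype_mk ?_ _
    exact continuous_pi fun j => (continuous_apply (-1 - j)).comp continuous_subtype_val
  continuous_invFun := by
    refine Continuous.subtype_mk ?_ _
    exact continuous_pi fun j => (continuous_apply (-1 - j)).comp continuous_subtype_val

theorem autGroup_neg {A : Type} [TopologicalSpace A] {X : Set (ℤ → A)} (hX : ShiftInv X)
    {h : X ≃ₜ X} (hh : h ∈ autGroup X hX) (x : X) (hx : sh (-1) x.1 ∈ X) :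
    ((h ⟨sh (-1) x.1, hx⟩ : X) : ℤ → A) = sh (-1) (h x : ℤ → A) := by
  have h1 := hh ⟨sh (-1) x.1, hx⟩
  have e : (⟨sh 1 (sh (-1) x.1), (hX _).2 hx⟩ : X) = x := by
    apply Subtype.ext
    show sh 1 (sh (-1) x.1) = x.1
    rw [sh_sh, add_neg_cancel, sh_zero]
  have h2 : ((h x : X) : ℤ → A) = sh 1 ((h ⟨sh (-1) x.1, hx⟩ : X) : ℤ → A) := by
    rw [← h1]
    congr 1
    exact congrArg h e.symm
  rw [h2, sh_sh, neg_add_cancel, sh_zero]

theorem rf_rev {A : Type} [DecidableEq A] [Finite A] [TopologicalSpace A] [DiscreteTopology A]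
    {ϑ : A → Finset (List A)} (h : Group.ResiduallyFinite (autRS ϑ)) :
    Group.ResiduallyFinite (autRS (rev ϑ)) := by
  let ρ := rflHomeo ϑ
  have hmem : ∀ g ∈ autRS (rev ϑ), (ρ.trans g).trans ρ.symm ∈ autRS ϑ := by
    intro g hg x
    show rfl' (((g ⟨rfl' (sh 1 x.1), _⟩ : subshift (rev ϑ))) : ℤ → A) =
      sh 1 (rfl' ((g ⟨rfl' x.1, _⟩ : subshift (rev ϑ)) : ℤ → A))
    have hx' : rfl' x.1 ∈ subshift (rev ϑ) := rfl'_mem x.2
    have hx1 : sh (-1) (rfl' x.1) ∈ subshift (rev ϑ) := Cst.sh_mem hx' _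
    have h1 := autGroup_neg (shiftInv_subshift (rev ϑ)) hg ⟨rfl' x.1, hx'⟩ hx1
    have e : (⟨rfl' (sh 1 x.1), rfl'_mem ((shiftInv_subshift ϑ x.1).2 x.2)⟩ :
        subshift (rev ϑ)) = ⟨sh (-1) (rfl' x.1), hx1⟩ := Subtype.ext (rfl'_sh 1 x.1)
    have h2 : ((g ⟨rfl' (sh 1 x.1), rfl'_mem ((shiftInv_subshift ϑ x.1).2 x.2)⟩ :
        subshift (rev ϑ)) : ℤ → A) = sh (-1) ((g ⟨rfl' x.1, hx'⟩ : subshift (rev ϑ)) : ℤ → A) := by
      rw [e]
      exact h1
    rw [h2, rfl'_sh, neg_neg]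
  let f : autRS (rev ϑ) →* autRS ϑ :=
    { toFun := fun g => ⟨(ρ.trans g.1).trans ρ.symm, hmem g.1 g.2⟩
      map_one' := by
        apply Subtype.ext
        apply Homeomorph.ext
        intro x
        exact ρ.symm_apply_apply x
      map_mul' := by
        intro g g'
        apply Subtype.ext
        apply Homeomorph.ext
        intro x
        show ρ.symm (g.1 (g'.1 (ρ x))) = ρ.symm (g.1 (ρ (ρ.symm (g'.1 (ρ x)))))
        rw [ρ.apply_symm_apply] }
  have hinj : Function.Injective f := by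
    intro g g' hgg
    apply Subtype.ext
    apply Homeomorph.ext
    intro x
    have h1 := congrArg Subtype.val hgg
    have h2 : ρ.symm (g.1 (ρ (ρ.symm x))) = ρ.symm (g'.1 (ρ (ρ.symm x))) :=
      congrArg (fun (k : subshift ϑ ≃ₜ subshift ϑ) => k (ρ.symm x)) h1
    rw [ρ.apply_symm_apply] at h2
    exact ρ.symm.injective h2
  rw [Group.residuallyFinite_iff_forall_finiteIndexNormalSubgroup] at h ⊢
  intro g hg
  apply hinj
  rw [map_one]
  exact h (f g) fun K => hg (K.comap f)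

end H35.RS.OS
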