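import Pool.Agent.H5.RS.OS5b
import Pool.Agent.H5.RS.OS6
import Pool.Agent.H5.RS.OS7
import Pool.Agent.H5.RS.OS8r

/-!
# OS9: the one-sided theorem
-/

set_option autoImplicit false

namespace H35.RS.OS

open H35.RS H35.RS.Up

/-- the case of a right synchronising pattern -/
theorem right_case {A : Type} [Finite A] [TopologicalSpace A] [DiscreteTopology A]
    {ϑ : A → Finset (List A)} (hϑ : IsRandomSub ϑ) (hc : Compatible ϑ) (hp : Primitive ϑ)
    (hap : Aperiodic (subshift ϑ)) (hS : SyncRight ϑ) :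
    UniqueParse ϑ ∨ ¬ Group.ResiduallyFinite (autRS ϑ) := by
  by_cases hnd : ∃ b, ∃ v ∈ ϑ b, ∃ v' ∈ ϑ b, v ≠ v'
  · exact Or.inr (not_rf_of_sync hϑ hc hp hap hS hnd)
  · left
    push Not at hnd
    obtain ⟨ℓ, hℓ⟩ := hasLen_of_compatible hϑ hc
    exact unique_of_det hϑ hℓ hp hnd hS

/-- the final theorem -/
theorem one_sided_not_rf {A : Type} [Finite A] [TopologicalSpace A] [DiscreteTopology A]
    (ϑ : A → Finset (List A)) (hϑ : IsRandomSub ϑ) (hc : Compatible ϑ) (hp : Primitive ϑ)
    (hnr : ¬ Recognisable ϑ) (hap : Aperiodic (subshift ϑ))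
    (h : AgreeRight ϑ ∨ AgreeLeft ϑ ∨ SyncRight ϑ ∨ SyncLeft ϑ) :
    ¬ Group.ResiduallyFinite (autRS ϑ) := by
  classical
  obtain ⟨ℓ, hℓ⟩ := hasLen_of_compatible hϑ hc
  have hU : ¬ UniqueParse ϑ := fun hU => hnr (recognisable_of_unique hϑ hℓ hU)
  have hne : (subshift ϑ).Nonempty := by
    by_contra hcon
    rw [Set.not_nonempty_iff_eq_empty] at hcon
    apply hnr
    intro x hx
    rw [hcon] at hx
    exact absurd hx (Set.notMem_empty x)
  have hright : SyncRight ϑ → ¬ Group.ResiduallyFinite (autRS ϑ) := fun hS =>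
    (right_case hϑ hc hp hap hS).resolve_left hU
  have hleft : SyncRight (rev ϑ) → ¬ Group.ResiduallyFinite (autRS ϑ) := fun hS => by
    rcases right_case (rev_isRandomSub hϑ) (rev_compatible hc) (rev_primitive hp)
      (rev_aperiodic hap) hS with h1 | h1
    · exact absurd (unique_of_rev h1) hU
    · exact fun h2 => h1 (rf_rev h2)
  have hner : (subshift (rev ϑ)).Nonempty := by
    obtain ⟨x, hx⟩ := hne
    exact ⟨_, rfl'_mem hx⟩
  rcases h with h | h | h | h
  · exact hright (syncRight_of_agreeRight hϑ hc hp hne hap h)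
  · exact hleft (syncRight_of_agreeRight (rev_isRandomSub hϑ) (rev_compatible hc)
      (rev_primitive hp) hner (rev_aperiodic hap) (rev_agreeRight h))
  · exact hright h
  · exact hleft (rev_syncRight h)

end H35.RS.OS
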