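import Pool.Agent.H5.RS.OS0

/-!
# OS9a: the prefix condition and the suffix condition
-/

set_option autoImplicit false

namespace H35.RS.OS

open H35.RS H35.RS.Up

variable {A : Type*}

theorem wd_prefix (x : ℤ → A) (i : ℤ) {m n : ℕ} (h : m ≤ n) : wd x i m <+: wd x i n := by
  obtain ⟨k, rfl⟩ := Nat.exists_eq_add_of_le h
  rw [wd_add]
  exact List.prefix_append _ _

theorem wd_suffix (x : ℤ → A) (p : ℤ) {m n : ℕ} (h : m ≤ n) :
    wd x (p - m) m <:+ wd x (p - n) n := by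
  obtain ⟨k, rfl⟩ := Nat.exists_eq_add_of_le h
  rw [add_comm m k, wd_add]
  have e : p - ((k + m : ℕ) : ℤ) + k = p - m := by push_cast; ring
  rw [e]
  exact List.suffix_append _ _

theorem agreeRight_of_prefix {ϑ : A → Finset (List A)} (hϑ : IsRandomSub ϑ)
    (hc : Compatible ϑ) (h : ∀ a b, a ≠ b → ∀ u ∈ ϑ a, ∀ v ∈ ϑ b, ¬ u <+: v) :
    AgreeRight ϑ := by
  obtain ⟨ℓ, hℓ⟩ := hasLen_of_compatible hϑ hc
  intro x y c y' c' hP hP' h0
  have key : ∀ i : ℤ, c i = c' i → y i = y' i := by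
    intro i hi
    by_contra hne
    have t1 := hP.tile hℓ i
    have t2 := hP'.tile hℓ i
    rw [← hi] at t2
    rcases le_total (ℓ (y i)) (ℓ (y' i)) with hle | hle
    · exact h _ _ hne _ t1 _ t2 (wd_prefix x _ hle)
    · exact h _ _ (Ne.symm hne) _ t2 _ t1 (wd_prefix x _ hle)
  have cuts : ∀ n : ℕ, c n = c' n := by
    intro n
    induction n with
    | zero => simpa using h0
    | succ n ih =>
      have e1 := hP.step hℓ n
      have e2 := hP'.step hℓ n
      push_cast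
      rw [e1, e2, ih, key n ih]
  intro i hi
  obtain ⟨n, rfl⟩ := Int.eq_ofNat_of_zero_le hi
  exact ⟨cuts n, key n (cuts n)⟩

theorem agreeLeft_of_suffix {ϑ : A → Finset (List A)} (hϑ : IsRandomSub ϑ)
    (hc : Compatible ϑ) (h : ∀ a b, a ≠ b → ∀ u ∈ ϑ a, ∀ v ∈ ϑ b, ¬ u <:+ v) :
    AgreeLeft ϑ := by
  obtain ⟨ℓ, hℓ⟩ := hasLen_of_compatible hϑ hc
  intro x y c y' c' hP hP' h0
  have key : ∀ i : ℤ, c (i + 1) = c' (i + 1) → y i = y' i := by
    intro i hi
    by_contra hne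
    have t1 := hP.tile hℓ i
    have t2 := hP'.tile hℓ i
    have e1 : c i = c (i + 1) - ℓ (y i) := by rw [hP.step hℓ i]; ring
    have e2 : c' i = c (i + 1) - ℓ (y' i) := by rw [hi, hP'.step hℓ i]; ring
    rw [e1] at t1
    rw [e2] at t2
    rcases le_total (ℓ (y i)) (ℓ (y' i)) with hle | hle
    · exact h _ _ hne _ t1 _ t2 (wd_suffix x _ hle)
    · exact h _ _ (Ne.symm hne) _ t2 _ t1 (wd_suffix x _ hle)
  have cuts : ∀ n : ℕ, c (-n) = c' (-n) := by
    intro n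
    induction n with
    | zero => simpa using h0
    | succ n ih =>
      have e : (-((n + 1 : ℕ) : ℤ)) + 1 = -(n : ℤ) := by push_cast; ring
      have ih' : c (-((n + 1 : ℕ) : ℤ) + 1) = c' (-((n + 1 : ℕ) : ℤ) + 1) := by
        rw [e]; exact ih
      have e1 := hP.step hℓ (-((n + 1 : ℕ) : ℤ))
      have e2 := hP'.step hℓ (-((n + 1 : ℕ) : ℤ))
      have e3 := key _ ih'
      rw [e3] at e1
      linarith
  intro i hi
  obtain ⟨n, hn⟩ := Int.eq_ofNat_of_zero_le (show 0 ≤ -(i + 1) by omega)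
  have e1 : i + 1 = -(n : ℤ) := by omega
  have e2 : i = -((n + 1 : ℕ) : ℤ) := by push_cast; omega
  refine ⟨by rw [e2]; exact cuts (n + 1), key i ?_⟩
  rw [e1]
  exact cuts n

end H35.RS.OS
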