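import Pool.Agent.H35.RS.Const
import Pool.Agent.H35.RS.Tiles
import Pool.Agent.H35.RS.PowF

/-!
# Desubstitutions with explicit cuts (definitions)
-/

set_option autoImplicit false

namespace H35.RS.OS

open H35.RS

variable {A : Type*}

/-- `(y, c)` is a desubstitution of `x` with the cuts `c`: `y` belongs to the subshift and the
block of `x` between the cuts `c i` and `c (i+1)` belongs to `ϑ (y i)`. -/
def Parse (ϑ : A → Finset (List A)) (x y : ℤ → A) (c : ℤ → ℤ) : Prop :=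
  y ∈ subshift ϑ ∧ ∀ i, c i < c (i + 1) ∧ wd x (c i) (c (i + 1) - c i).toNat ∈ ϑ (y i)

/-- All words of `ϑ a` have the length `ℓ a`. -/
def HasLen (ϑ : A → Finset (List A)) (ℓ : A → ℕ) : Prop := ∀ a, ∀ v ∈ ϑ a, v.length = ℓ a

/-- Two desubstitutions of the same sequence which share a cut agree to the right of it. -/
def AgreeRight (ϑ : A → Finset (List A)) : Prop :=
  ∀ (x y : ℤ → A) (c : ℤ → ℤ) (y' : ℤ → A) (c' : ℤ → ℤ), Parse ϑ x y c → Parse ϑ x y' c' →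
    c 0 = c' 0 → ∀ i : ℤ, 0 ≤ i → c i = c' i ∧ y i = y' i

/-- Two desubstitutions of the same sequence which share a cut agree to the left of it. -/
def AgreeLeft (ϑ : A → Finset (List A)) : Prop :=
  ∀ (x y : ℤ → A) (c : ℤ → ℤ) (y' : ℤ → A) (c' : ℤ → ℤ), Parse ϑ x y c → Parse ϑ x y' c' →
    c 0 = c' 0 → ∀ i : ℤ, i < 0 → c i = c' i ∧ y i = y' i

/-- `x` shows the pattern `x0_{-n} ⋯ x0_{n-1}` around `0`. -/
def Near (n : ℕ) (x0 x : ℤ → A) : Prop := ∀ i : ℤ, -(n : ℤ) ≤ i → i < n → x i = x0 i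

/-- Some legal pattern forces a cut and determines the desubstitution to the right of it. -/
def SyncRight (ϑ : A → Finset (List A)) : Prop :=
  ∃ x0 ∈ subshift ϑ, ∃ n : ℕ, ∀ x ∈ subshift ϑ, Near n x0 x →
    (∀ y c, Parse ϑ x y c → ∃ i, c i = 0) ∧
    ∀ (y : ℤ → A) (c : ℤ → ℤ) (y' : ℤ → A) (c' : ℤ → ℤ), Parse ϑ x y c → Parse ϑ x y' c' →
      c 0 = 0 → c' 0 = 0 → ∀ i : ℤ, 0 ≤ i → c i = c' i ∧ y i = y' i

/-- Some legal pattern forces a cut and determines the desubstitution to the left of it. -/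
def SyncLeft (ϑ : A → Finset (List A)) : Prop :=
  ∃ x0 ∈ subshift ϑ, ∃ n : ℕ, ∀ x ∈ subshift ϑ, Near n x0 x →
    (∀ y c, Parse ϑ x y c → ∃ i, c i = 0) ∧
    ∀ (y : ℤ → A) (c : ℤ → ℤ) (y' : ℤ → A) (c' : ℤ → ℤ), Parse ϑ x y c → Parse ϑ x y' c' →
      c 0 = 0 → c' 0 = 0 → ∀ i : ℤ, i < 0 → c i = c' i ∧ y i = y' i

/-- Every sequence has at most one desubstitution, up to the numbering of the letters. -/
def UniqueParse (ϑ : A → Finset (List A)) : Prop :=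
  ∀ (x y : ℤ → A) (c : ℤ → ℤ) (y' : ℤ → A) (c' : ℤ → ℤ), Parse ϑ x y c → Parse ϑ x y' c' →
    ∃ k : ℤ, ∀ i, c' i = c (i + k) ∧ y' i = y (i + k)

/-- The cut `0` is common to all desubstitutions of `x`. -/
def Forced (ϑ : A → Finset (List A)) (x : ℤ → A) : Prop :=
  ∀ y c, Parse ϑ x y c → ∃ i, c i = 0

end H35.RS.OS
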